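import Pool.Agent.U707.SHA.Main
import Pool.Agent.U747.GE.MQF

/-!
# The fields generated by square roots of products of evenly many primes
-/

set_option autoImplicit false
set_option linter.unusedSectionVars false
set_option linter.unusedVariables false

open scoped Classical

namespace Pool.Agent.U707.SHA

open Finset
open Pool.Agent.U115.GE
open Pool.Agent.TH841.NF.D (rk Sha)
open Pool.Agent.Y682 (wc)

variable {a b : ℤ} {D : ℕ}

/-- the squarefree part is unique -/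
theorem sqf_unique {M N g k : ℕ} (hM : Squarefree M) (hN : Squarefree N) (hk : k ≠ 0)
    (h : N * g ^ 2 = M * k ^ 2) : N = M := by
  have hg : g ≠ 0 := by
    rintro rfl
    rw [zero_pow two_ne_zero, mul_zero] at h
    exact mul_ne_zero hM.ne_zero (pow_ne_zero 2 hk) h.symm
  refine Nat.eq_of_factorization_eq hN.ne_zero hM.ne_zero fun p => ?_
  have h1 : (N * g ^ 2).factorization p = (M * k ^ 2).factorization p := by rw [h]
  rw [Nat.factorization_mul hN.ne_zero (pow_ne_zero 2 hg),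
    Nat.factorization_mul hM.ne_zero (pow_ne_zero 2 hk), Nat.factorization_pow,
    Nat.factorization_pow] at h1
  simp only [Finsupp.add_apply, Finsupp.smul_apply, smul_eq_mul] at h1
  have h2 := hM.natFactorization_le_one p
  have h3 := hN.natFactorization_le_one p
  omega

theorem even_symm {A B : Finset ℕ} (hA : Even A.card) (hB : Even B.card) :
    Even ((A \ B) ∪ (B \ A)).card := by
  rw [Finset.card_union_of_disjoint (by
    rw [Finset.disjoint_left]
    intro x hx hy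
    exact (Finset.mem_sdiff.1 hx).2 (Finset.mem_sdiff.1 hy).1)]
  have h1 := Finset.card_sdiff_add_card_inter A B
  have h2 := Finset.card_sdiff_add_card_inter B A
  rw [Finset.inter_comm] at h2
  obtain ⟨a, ha⟩ := hA
  obtain ⟨b, hb⟩ := hB
  refine ⟨a + b - (A ∩ B).card, ?_⟩
  omega

/-- the product of products, up to squares -/
theorem even_prod {T : Set ℕ} (h0 : ∀ q ∈ T, q ≠ 0) {n : ℕ} (S : Fin n → Finset ℕ)
    (hS : ∀ i, (S i : Set ℕ) ⊆ T ∧ Even (S i).card) (I : Finset (Fin n)) :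
    ∃ (V : Finset ℕ) (k : ℕ), (V : Set ℕ) ⊆ T ∧ Even V.card ∧ k ≠ 0 ∧
      ∏ i ∈ I, ∏ q ∈ S i, q = (∏ q ∈ V, q) * k ^ 2 := by
  induction I using Finset.induction_on with
  | empty => exact ⟨∅, 1, by simp, by simp, one_ne_zero, by simp⟩
  | insert a I ha ih =>
    obtain ⟨V, k, hV, hVe, hk, h⟩ := ih
    refine ⟨(S a \ V) ∪ (V \ S a), k * ∏ q ∈ S a ∩ V, q, ?_, even_symm (hS a).2 hVe, ?_, ?_⟩
    · intro q hq
      rcases Finset.mem_union.1 (mem_coe.1 hq) with h1 | h1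
      · exact (hS a).1 (mem_coe.2 (Finset.mem_sdiff.1 h1).1)
      · exact hV (mem_coe.2 (Finset.mem_sdiff.1 h1).1)
    · exact mul_ne_zero hk (Finset.prod_ne_zero_iff.2 fun q hq =>
        h0 q (hV (mem_coe.2 (Finset.mem_inter.1 hq).2)))
    · have e1 : ∏ q ∈ S a, q = (∏ q ∈ S a \ V, q) * ∏ q ∈ S a ∩ V, q := by
        rw [← Finset.prod_union (Finset.disjoint_sdiff_inter _ _), Finset.sdiff_union_inter]
      have e2 : ∏ q ∈ V, q = (∏ q ∈ V \ S a, q) * ∏ q ∈ S a ∩ V, q := by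
        rw [Finset.inter_comm, ← Finset.prod_union (Finset.disjoint_sdiff_inter _ _),
          Finset.sdiff_union_inter]
      rw [Finset.prod_insert ha, Finset.prod_union (by
        rw [Finset.disjoint_left]
        intro x hx hy
        exact (Finset.mem_sdiff.1 hx).2 (Finset.mem_sdiff.1 hy).1), h, e1, e2]
      ring

/-- the members of the family -/
theorem member {T : Set ℕ} (h0 : ∀ q ∈ T, q ≠ 0) {n : ℕ} {S : Fin n → Finset ℕ}
    (hS : ∀ i, (S i : Set ℕ) ⊆ T ∧ Even (S i).card) {I : Finset (Fin n)} {N g : ℕ}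
    (hsq : ∀ V : Finset ℕ, (V : Set ℕ) ⊆ T → Even V.card → Squarefree (D * ∏ q ∈ V, q))
    (hN : Squarefree N) (h : N * g ^ 2 = D * ∏ i ∈ I, ∏ q ∈ S i, q) :
    ∃ V : Finset ℕ, (V : Set ℕ) ⊆ T ∧ Even V.card ∧ N = D * ∏ q ∈ V, q := by
  obtain ⟨V, k, hV, hVe, hk, h1⟩ := even_prod h0 S hS I
  refine ⟨V, hV, hVe, sqf_unique (g := g) (k := k) (hsq V hV hVe) hN hk ?_⟩
  rw [h, h1]
  ring

/-- `K` is generated by `n` square roots of products of evenly many elements of `T` -/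
def Layer (T : Set ℕ) (n : ℕ) (K : Type) [Field K] [NumberField K] : Prop :=
  ∃ (r : Fin n → K) (A : Fin n → Finset ℕ),
    (∀ i, (A i : Set ℕ) ⊆ T ∧ Even (A i).card ∧ r i ^ 2 = ((∏ p ∈ A i, p : ℕ) : K)) ∧
      IntermediateField.adjoin ℚ (Set.range r) = ⊤

/-- finitely many points and `Ш[2^∞]` over the layers -/
theorem layer_tt (hb : b ≠ 0) (hc : a ^ 2 - 4 * b ≠ 0) (hD : D ≠ 0) {T : Set ℕ}
    (h0 : ∀ q ∈ T, q ≠ 0)
    (h : ∀ V : Finset ℕ, (V : Set ℕ) ⊆ T → Even V.card → Squarefree (D * ∏ q ∈ V, q) ∧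
      Finite (twE a b (D * ∏ q ∈ V, q)).toAffine.Point ∧
      ∀ x : Sha (twE a b (D * ∏ q ∈ V, q)), 2 • x = 0 → x = 0)
    {n : ℕ} (K : Type) [Field K] [NumberField K] (hK : Layer T n K) :
    Finite (wc ((a : K) * (D : K)) ((b : K) * (D : K) ^ 2)).toAffine.Point ∧
      ∀ (k : ℕ) (x : Sha (wc ((a : K) * (D : K)) ((b : K) * (D : K) ^ 2))),
        2 ^ k • x = 0 → 2 ^ n • x = 0 := by
  obtain ⟨r, A, hA, hgen⟩ := hK
  refine Pool.Agent.U747.GE.t_MQF a b D n (fun i => ∏ p ∈ A i, p) hb hc hD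
    (fun i => prod_ne_zero_iff.2 fun q hq => h0 q ((hA i).1 (mem_coe.2 hq)))
    (fun I N g hN hNg => ?_) K r (fun i => (hA i).2.2) hgen
  obtain ⟨V, hV, hVe, rfl⟩ := member h0 (fun i => ⟨(hA i).1, (hA i).2.1⟩)
    (fun V hV hVe => (h V hV hVe).1) hN hNg
  exact (h V hV hVe).2

/-- the rank over the layers -/
theorem layer_rk (hb : b ≠ 0) (hc : a ^ 2 - 4 * b ≠ 0) (hD : D ≠ 0) {T : Set ℕ}
    (h0 : ∀ q ∈ T, q ≠ 0) {ρ : ℕ}
    (h : ∀ V : Finset ℕ, (V : Set ℕ) ⊆ T → Even V.card → Squarefree (D * ∏ q ∈ V, q) ∧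
      rk (twE a b (D * ∏ q ∈ V, q)) ≤ ρ)
    {n : ℕ} (K : Type) [Field K] [NumberField K] (hK : Layer T n K) :
    rk (wc ((a : K) * (D : K)) ((b : K) * (D : K) ^ 2)) ≤ 2 ^ n * ρ := by
  obtain ⟨r, A, hA, hgen⟩ := hK
  refine (Pool.Agent.U747.GE.t_MQR a b D n (fun i => ∏ p ∈ A i, p) hb hc hD
    (fun i => prod_ne_zero_iff.2 fun q hq => h0 q ((hA i).1 (mem_coe.2 hq))) (fun _ => ρ)
    (fun I N g hN hNg => ?_) K r (fun i => (hA i).2.2) hgen).trans ?_
  · obtain ⟨V, hV, hVe, rfl⟩ := member h0 (fun i => ⟨(hA i).1, (hA i).2.1⟩)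
      (fun V hV hVe => (h V hV hVe).1) hN hNg
    exact (h V hV hVe).2
  · rw [sum_const, card_univ, Fintype.card_finset, Fintype.card_fin, smul_eq_mul]

end Pool.Agent.U707.SHA
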