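import Pool.Agent.U707.SHA.Ram

/-!
# The exact number of elements of the kernel for homogeneous sets with `dl = 0`
-/

set_option autoImplicit false
set_option linter.unusedSectionVars false

open scoped Classical

namespace Pool.Agent.U707.SHA

open Finset

variable {H : ℕ → Prop} {nr : ℕ → ℕ → ZMod 2} {f v : ℕ → ZMod 2} {P A : Finset ℕ} {c : ZMod 2}

/-- the kernel of the matrix with one more row and column -/
def Ext (H : ℕ → Prop) (nr : ℕ → ℕ → ZMod 2) (f v : ℕ → ZMod 2) (c : ZMod 2) (P : Finset ℕ) :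
    Set ((ℕ → ZMod 2) × ZMod 2) :=
  {y | (∀ p, ¬ (p ∈ P ∧ H p) → y.1 p = 0) ∧
    (∀ i ∈ P, H i → ∑ q ∈ P, nr i q * (cu H y.1 q + y.1 i) + f i * y.1 i + v i * y.2 = 0) ∧
    ∑ q ∈ P, v q * cu H y.1 q + c * y.2 = 0}

theorem ext_finite : (Ext H nr f v c P).Finite := by
  let g : (ℕ → ZMod 2) × ZMod 2 → (P → ZMod 2) × ZMod 2 := fun y => (fun i => y.1 i, y.2)
  refine Set.Finite.of_finite_image (f := g) (Set.toFinite _) ?_
  intro x hx y hy hxy
  have h1 : (fun i : P => x.1 i) = fun i : P => y.1 i := congrArg (fun z => z.1) hxy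
  have h2 : x.2 = y.2 := congrArg (fun z => z.2) hxy
  refine Prod.ext (funext fun p => ?_) h2
  by_cases hp : p ∈ P
  · exact congrFun h1 ⟨p, hp⟩
  · rw [hx.1 p fun h => hp h.1, hy.1 p fun h => hp h.1]

theorem ext_pos : 0 < Nat.card (Ext H nr f v c P) := by
  have h : ((fun _ => 0, 0) : (ℕ → ZMod 2) × ZMod 2) ∈ Ext H nr f v c P := by
    refine ⟨fun _ _ => rfl, fun i _ _ => ?_, ?_⟩
    · have : ∀ q ∈ P, nr i q * (cu H (fun _ => (0 : ZMod 2)) q + 0) = 0 := fun q _ => by
        unfold cu
        rw [ite_self, add_zero, mul_zero]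
      simp only
      rw [sum_eq_zero this, mul_zero, mul_zero, add_zero, add_zero]
    · simp only
      rw [mul_zero, add_zero]
      refine sum_eq_zero fun q _ => ?_
      unfold cu
      rw [ite_self, mul_zero]
  have := ext_finite (H := H) (nr := nr) (f := f) (v := v) (c := c) (P := P)
  exact Nat.card_pos_iff.2 ⟨⟨⟨_, h⟩⟩, this.to_subtype⟩

/-- **the exact number** -/
theorem ks_ext (h0 : ∀ p, nr p p = 0) (hd : Disjoint P A) (hA : Even A.card)
    (hv : ∀ q ∈ A, ∀ i ∈ P, nr i q = v i) (hs : ∀ q ∈ A, ∀ i ∈ P, nr q i = nr i q)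
    (hm : ∀ q ∈ A, H q)
    (hc : ∀ p ∈ A, ∀ q ∈ A, p ≠ q → nr p q = c) (hδ : ∀ q ∈ A, dl nr f P q = 0)
    {p₀ : ℕ} (hp₀ : p₀ ∈ A) :
    Nat.card (KS H nr f (P ∪ A)) = Nat.card (Ext H nr f v c P) * 2 ^ (A.card - 1) := by
  have h11 : ∀ z : ZMod 2, z + z = 0 := fun z => CharTwo.add_self_eq_zero z
  have hdP : ∀ p ∈ A, p ∉ P := fun p hp hp' => disjoint_left.1 hd hp' hp
  have hcu : ∀ (x : ℕ → ZMod 2), ∀ q ∈ A, cu H x q = x q := fun x q hq => if_pos (hm q hq)
  have key : ∀ (x : ℕ → ZMod 2) (p : ℕ) (g : ZMod 2),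
      ∑ q ∈ A, g * (cu H x q + x p) = g * ∑ q ∈ A, x q := by
    intro x p g
    rw [← mul_sum, sum_add_distrib, sum_congr rfl (hcu x), sum_const, nsmul_eq_mul, even_cast hA,
      zero_mul, add_zero]
  -- the equation at a new prime
  have hnew : ∀ (x : ℕ → ZMod 2), ∀ p ∈ A,
      ∑ q ∈ P ∪ A, nr p q * (cu H x q + x p) + f p * x p =
        ∑ q ∈ P, v q * cu H x q + c * (∑ q ∈ A, x q) := by
    intro x p hp
    rw [sum_union hd]
    have h2 : ∑ q ∈ P, nr p q * (cu H x q + x p) =
        ∑ q ∈ P, v q * cu H x q + (∑ q ∈ P, nr p q) * x p := by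
      simp only [mul_add, sum_add_distrib, ← sum_mul]
      congr 1
      refine sum_congr rfl fun q hq => ?_
      rw [hs p hp q hq, hv p hp q hq]
    have h3 : ∑ q ∈ A, nr p q * (cu H x q + x p) = c * ∑ q ∈ A, x q := by
      rw [← key x p c]
      refine sum_congr rfl fun q hq => ?_
      by_cases hpq : p = q
      · subst hpq
        rw [h0, hcu x p hp, h11, mul_zero, mul_zero]
      · rw [hc p hp q hq hpq]
    rw [h2, h3]
    have h4 := hδ p hp
    unfold dl at h4
    linear_combination (x p) * h4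
  have hold : ∀ (x : ℕ → ZMod 2), ∀ i ∈ P, ∑ q ∈ A, nr i q * (cu H x q + x i) =
      v i * ∑ q ∈ A, x q := by
    intro x i hi
    rw [← key x i (v i)]
    exact sum_congr rfl fun q hq => by rw [hv q hq i hi]
  have hsum : ∀ x : ℕ → ZMod 2, ∑ q ∈ A, x q = x p₀ + ∑ q ∈ A.erase p₀, x q := fun x =>
    (add_sum_erase A x hp₀).symm
  have e : KS H nr f (P ∪ A) ≃ Ext H nr f v c P × (A.erase p₀ → ZMod 2) := by
    refine
      { toFun := fun x => (⟨(fun p => if p ∈ P then x.1 p else 0, ∑ q ∈ A, x.1 q), ?_⟩,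
          fun q => x.1 q)
        invFun := fun y => ⟨fun p => if p ∈ P then y.1.1.1 p else if h : p ∈ A.erase p₀ then
          y.2 ⟨p, h⟩ else if p = p₀ then y.1.1.2 + ∑ q, y.2 q else 0, ?_⟩
        left_inv := ?_
        right_inv := ?_ }
    · obtain ⟨x, hx1, hx2⟩ := x
      refine ⟨fun p hp => ?_, fun i hi hi1 => ?_, ?_⟩
      · by_cases hpP : p ∈ P
        · simp only [if_pos hpP]
          refine hx1 p fun h => hp ⟨hpP, h.2⟩
        · simp only [if_neg hpP]
      · have h3 := hx2 i (mem_union_left _ hi) hi1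
        rw [eq_old hd, hold x i hi] at h3
        simp only [if_pos hi]
        refine Eq.trans ?_ h3
        congr 2
        refine sum_congr rfl fun q hq => ?_
        unfold cu
        simp only [if_pos hq]
      · have h3 := hx2 p₀ (mem_union_right _ hp₀) (hm p₀ hp₀)
        rw [hnew x p₀ hp₀] at h3
        refine Eq.trans ?_ h3
        simp only
        congr 1
        refine sum_congr rfl fun q hq => ?_
        unfold cu
        simp only [if_pos hq]
    · obtain ⟨⟨⟨y, Y⟩, hy1, hy2, hy3⟩, g⟩ := y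
      simp only at hy1 hy2 hy3 ⊢
      set x : ℕ → ZMod 2 := fun p => if p ∈ P then y p else if h : p ∈ A.erase p₀ then
          g ⟨p, h⟩ else if p = p₀ then Y + ∑ q, g q else 0 with hx
      have xP : ∀ p ∈ P, x p = y p := fun p hp => if_pos hp
      have xA : ∀ (p : ℕ) (h : p ∈ A.erase p₀), x p = g ⟨p, h⟩ := by
        intro p h
        show (if p ∈ P then y p else if h : p ∈ A.erase p₀ then
          g ⟨p, h⟩ else if p = p₀ then Y + ∑ q, g q else 0) = _
        rw [if_neg (hdP p (mem_of_mem_erase h)), dif_pos h]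
      have x0 : x p₀ = Y + ∑ q, g q := by
        show (if p₀ ∈ P then y p₀ else if h : p₀ ∈ A.erase p₀ then
          g ⟨p₀, h⟩ else if p₀ = p₀ then Y + ∑ q, g q else 0) = _
        rw [if_neg (hdP p₀ hp₀), dif_neg (notMem_erase _ _), if_pos rfl]
      have hX : ∑ q ∈ A, x q = Y := by
        rw [hsum, x0]
        have : ∑ q ∈ A.erase p₀, x q = ∑ q : A.erase p₀, g q := by
          rw [← sum_coe_sort]
          exact sum_congr rfl fun q _ => xA q q.2
        rw [this, add_assoc, h11, add_zero]
      have cP : ∀ p ∈ P, cu H x p = cu H y p := by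
        intro p hp
        unfold cu
        rw [xP p hp]
      refine ⟨fun p hp => ?_, fun p hp hp1 => ?_⟩
      · show x p = 0
        by_cases hpP : p ∈ P
        · rw [xP p hpP]
          exact hy1 p fun h => hp ⟨mem_union_left _ hpP, h.2⟩
        · have hpA : p ∉ A := fun h => hp ⟨mem_union_right _ h, hm p h⟩
          show (if p ∈ P then y p else if h : p ∈ A.erase p₀ then
            g ⟨p, h⟩ else if p = p₀ then Y + ∑ q, g q else 0) = 0
          rw [if_neg hpP, dif_neg fun h => hpA (mem_of_mem_erase h), if_neg]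
          rintro rfl
          exact hpA hp₀
      · rcases mem_union.1 hp with hpP | hpA
        · rw [eq_old hd, hold x p hpP, hX, xP p hpP]
          refine Eq.trans ?_ (hy2 p hpP hp1)
          congr 2
          exact sum_congr rfl fun q hq => by rw [cP q hq]
        · rw [hnew x p hpA, hX]
          refine Eq.trans ?_ hy3
          congr 1
          exact sum_congr rfl fun q hq => by rw [cP q hq]
    · rintro ⟨x, hx1, hx2⟩
      apply Subtype.ext
      funext p
      simp only
      by_cases hpP : p ∈ P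
      · rw [if_pos hpP, if_pos hpP]
      · rw [if_neg hpP]
        by_cases hpA : p ∈ A.erase p₀
        · rw [dif_pos hpA]
        · rw [dif_neg hpA]
          by_cases hp0 : p = p₀
          · rw [if_pos hp0, hp0, hsum]
            have : ∑ q : A.erase p₀, x q = ∑ q ∈ A.erase p₀, x q := sum_coe_sort _ _
            rw [this, add_assoc, h11, add_zero]
          · rw [if_neg hp0]
            refine (hx1 p fun h => ?_).symm
            rcases mem_union.1 h.1 with h' | h'
            · exact hpP h'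
            · exact hpA (mem_erase.2 ⟨hp0, h'⟩)
    · rintro ⟨⟨⟨y, Y⟩, hy1, hy2, hy3⟩, g⟩
      simp only at hy1
      have h5 : ∑ q ∈ A, (if q ∈ P then y q else if h : q ∈ A.erase p₀ then
          g ⟨q, h⟩ else if q = p₀ then Y + ∑ q, g q else 0) = Y := by
        rw [hsum, if_neg (hdP p₀ hp₀), dif_neg (notMem_erase _ _), if_pos rfl]
        have : ∑ q ∈ A.erase p₀, (if q ∈ P then y q else if h : q ∈ A.erase p₀ then
            g ⟨q, h⟩ else if q = p₀ then Y + ∑ q, g q else 0) = ∑ q : A.erase p₀, g q := by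
          rw [← sum_coe_sort]
          refine sum_congr rfl fun q _ => ?_
          rw [if_neg (hdP q (mem_of_mem_erase q.2)), dif_pos q.2]
        rw [this, add_assoc, h11, add_zero]
      refine Prod.ext (Subtype.ext (Prod.ext ?_ ?_)) ?_
      · funext p
        simp only
        by_cases hpP : p ∈ P
        · rw [if_pos hpP, if_pos hpP]
        · rw [if_neg hpP]
          exact (hy1 p fun h => hpP h.1).symm
      · simp only
        exact h5
      · funext q
        simp only
        rw [if_neg (hdP q (mem_of_mem_erase q.2)), dif_pos q.2]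
  rw [Nat.card_congr e, Nat.card_prod, Nat.card_eq_fintype_card (α := A.erase p₀ → ZMod 2),
    Fintype.card_fun, ZMod.card, Fintype.card_coe, card_erase_of_mem hp₀]

end Pool.Agent.U707.SHA
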