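import Pool.Agent.U707.SHA.Main
import Pool.Agent.U707.SHA.Ext

/-!
# The exact growth of the Selmer groups for primes which are not admissible
-/

set_option autoImplicit false
set_option linter.unusedSectionVars false
set_option linter.unusedVariables false

open scoped Classical

namespace Pool.Agent.U707.SHA

open Finset
open Pool.Agent.U115.GE
open Pool.Agent.Y698.SG (nq nq_prod nq_zero)

variable {a b : ℤ} {D : ℕ}

/-- the exact growth if only finitely many primes are admissible -/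
theorem grow (hb : b ≠ 0) (hc : a ^ 2 - 4 * b ≠ 0) (hD : Class a b D) (T : Set ℕ)
    (hi : T.Infinite) (hS : ∀ p ∈ T, SI a b p) (hf : {p ∈ T | NoRoot a b D p}.Finite) :
    ∃ T' ⊆ T, T'.Infinite ∧ ∃ C : ℕ, 0 < C ∧ ∀ A : Finset ℕ, (A : Set ℕ) ⊆ T' → Even A.card →
      A.Nonempty → Class a b (D * ∏ p ∈ A, p) ∧ kap a b (D * ∏ p ∈ A, p) = C * 2 ^ (A.card - 1) := by
  have h1 : (T \ ({p ∈ T | NoRoot a b D p} ∪ (D.primeFactors : Set ℕ))).Infinite :=
    hi.sdiff (hf.union D.primeFactors.finite_toSet)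
  set T' := T \ ({p ∈ T | NoRoot a b D p} ∪ (D.primeFactors : Set ℕ)) with hT'
  have hz : ∀ a : ZMod 2, a = 1 ∨ a = 0 := by decide
  have hT1 : ∀ p ∈ T', SI a b p ∧ ¬ p ∣ D ∧ Res a b p ∧
      dl nq (thetaG a b) D.primeFactors p = 0 := by
    rintro p ⟨hp, hp'⟩
    rw [Set.mem_union, not_or] at hp'
    have hsi := hS p hp
    have hnr : ¬ NoRoot a b D p := fun h => hp'.1 ⟨hp, h⟩
    have hnd : ¬ p ∣ D := fun h =>
      hp'.2 (mem_coe.2 (Nat.mem_primeFactors.2 ⟨hsi.1, h, hD.1.ne_zero⟩))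
    have hr : Res a b p := hsi.2.resolve_right fun h => hnr (noRoot_inert h hnd)
    refine ⟨hsi, hnd, hr, (hz _).resolve_left fun h => hnr ?_⟩
    exact (noRoot_split hD hsi.1 hr hnd).2 h
  obtain ⟨T₂, hT₂, hT₂i, h⟩ := hom_inf (H := Res a b) (nr := nq) (col := cl a b)
    (P := D.primeFactors) T' h1
    (fun p hp q hq => res_iff_of_cl hb hc (hT1 p hp).1 (hT1 q hq).1)
    (fun p hp q hq h _ => si_symm (hT1 p hp).1 h (hT1 q hq).1)
  obtain ⟨p₀, hp₀⟩ := hT₂i.nonempty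
  obtain ⟨q₀, hq₀, hpq⟩ := (hT₂i.sdiff (Set.finite_singleton p₀)).nonempty
  have hne : p₀ ≠ q₀ := fun e => hpq (by rw [e]; rfl)
  set v : ℕ → ZMod 2 := fun i => nq i p₀ with hv
  refine ⟨T₂, fun p hp => (hT₂ hp).1, hT₂i,
    Nat.card (Ext (Res a b) nq (thetaG a b) v (nq p₀ q₀) D.primeFactors), ext_pos, ?_⟩
  intro A hA hAe hAn
  have hAT : ∀ p ∈ A, p ∈ T' := fun p hp => hT₂ (hA (mem_coe.2 hp))
  obtain ⟨h2, h3⟩ := mul_fac hb hc hD hAe (fun p hp => (hT1 p (hAT p hp)).1)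
    (fun p hp => (hT1 p (hAT p hp)).2.1) (h A hA).col
  refine ⟨h2, ?_⟩
  -- a larger homogeneous set
  set A' : Finset ℕ := insert p₀ (insert q₀ A) with hA'
  have hA'T : (A' : Set ℕ) ⊆ T₂ := by
    intro x hx
    rcases mem_insert.1 (mem_coe.1 hx) with rfl | hx
    · exact hp₀
    · rcases mem_insert.1 hx with rfl | hx
      · exact hq₀
      · exact hA (mem_coe.2 hx)
  have hH := h A' hA'T
  have hm : ∀ q ∈ A', Res a b q := fun q hq => (hT1 q (hT₂ (hA'T (mem_coe.2 hq)))).2.2.1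
  have hpA' : p₀ ∈ A' := mem_insert_self _ _
  have hqA' : q₀ ∈ A' := mem_insert_of_mem (mem_insert_self _ _)
  have hsub : A ⊆ A' := (subset_insert _ _).trans (subset_insert _ _)
  have hdj : Disjoint D.primeFactors A := by
    rw [disjoint_left]
    intro i hi' hiA
    exact (hT1 i (hAT i hiA)).2.1 (Nat.dvd_of_mem_primeFactors hi')
  obtain ⟨r₀, hr₀⟩ := hAn
  rw [← card_ks hb hc h2, h3]
  exact ks_ext (H := Res a b) (nr := nq) (f := thetaG a b) (P := D.primeFactors) (A := A)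
    (v := v) (c := nq p₀ q₀) nq_self hdj hAe
    (fun q hq i hi' => hH.vec i hi' q (hsub hq) p₀ hpA')
    (fun q hq i hi' => si_symm (hT1 q (hAT q hq)).1 (hm q (hsub hq)) (class_si hD hi'))
    (fun q hq => hm q (hsub hq))
    (fun p hp q hq hne' => hH.pr hm p (hsub hp) q (hsub hq) p₀ hpA' q₀ hqA' hne' hne)
    (fun q hq => (hT1 q (hAT q hq)).2.2.2) hr₀

end Pool.Agent.U707.SHA
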