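import Pool.Agent.U707.SHA.Comb
import Pool.Agent.H330.Ramsey
import Pool.Agent.H265R2.CritP4

/-!
# Homogeneous sets of primes

`col` is a function to a finite set (the residue class of a prime). A set `A` is homogeneous over `P` if
`col` is constant on `A`, the symbols `nr i q` for `i ∈ P` do not depend on `q ∈ A`, and, if all elements
of `A` are split, the symbols `nr p q` are the same for all `p ≠ q` in `A`. Homogeneous sets exist by the
theorem of Ramsey (after `Pool/Agent/U693/X49/Comb.lean`).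
-/

set_option autoImplicit false
set_option linter.unusedSectionVars false

open scoped Classical

namespace Pool.Agent.U707.SHA

open Finset

variable {H : ℕ → Prop} {nr : ℕ → ℕ → ZMod 2} {f v : ℕ → ZMod 2} {P A : Finset ℕ} {c : ZMod 2}
variable {κ : Type} {col : ℕ → κ}

/-- homogeneous sets -/
structure Hom (H : ℕ → Prop) (nr : ℕ → ℕ → ZMod 2) (col : ℕ → κ) (P A : Finset ℕ) : Prop where
  col : ∀ q ∈ A, ∀ r ∈ A, col q = col r
  vec : ∀ i ∈ P, ∀ q ∈ A, ∀ r ∈ A, nr i q = nr i r
  pr : (∀ q ∈ A, H q) → ∀ p ∈ A, ∀ q ∈ A, ∀ r ∈ A, ∀ s ∈ A, p ≠ q → r ≠ s → nr p q = nr r s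

/-- the colour -/
noncomputable def full (nr : ℕ → ℕ → ZMod 2) (col : ℕ → κ) (P : Finset ℕ) (q : ℕ) :
    κ × (P → ZMod 2) := (col q, fun i => nr i q)

lemma full_col {q r : ℕ} (h : full nr col P q = full nr col P r) : col q = col r :=
  congrArg Prod.fst h

lemma full_nr {q r i : ℕ} (h : full nr col P q = full nr col P r) (hi : i ∈ P) :
    nr i q = nr i r :=
  congrFun (congrArg Prod.snd h) ⟨i, hi⟩

lemma card_full [Fintype κ] (P : Finset ℕ) :
    Fintype.card (κ × (P → ZMod 2)) = Fintype.card κ * 2 ^ P.card := by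
  rw [Fintype.card_prod, Fintype.card_fun, ZMod.card, Fintype.card_coe]

/-- Ramsey -/
theorem hom_fin [Fintype κ] (S : Finset ℕ) (k : ℕ)
    (hH : ∀ p ∈ S, ∀ q ∈ S, col p = col q → (H p ↔ H q))
    (hsy : ∀ p ∈ S, ∀ q ∈ S, H p → H q → nr p q = nr q p)
    (hS : Fintype.card κ * 2 ^ P.card * 2 ^ (2 * k) ≤ S.card) :
    ∃ A ⊆ S, A.card = k ∧ Hom H nr col P A := by
  have h1 : ∃ y ∈ (univ : Finset (κ × (P → ZMod 2))),
      2 ^ (2 * k) ≤ (S.filter fun q => full nr col P q = y).card := by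
    refine exists_le_card_fiber_of_mul_le_card_of_maps_to (fun q _ => mem_univ _)
      ⟨(col 0, fun _ => 0), mem_univ _⟩ ?_
    rw [card_univ, card_full]
    exact hS
  obtain ⟨y, -, hy⟩ := h1
  set S' := S.filter fun q => full nr col P q = y with hS'
  have hfull : ∀ A ⊆ S', ∀ q ∈ A, ∀ r ∈ A, full nr col P q = full nr col P r :=
    fun A hA q hq r hr => (mem_filter.1 (hA hq)).2.trans (mem_filter.1 (hA hr)).2.symm
  by_cases hall : ∀ q ∈ S', H q
  · let G : SimpleGraph ℕ := SimpleGraph.fromRel fun p q => nr p q = 1 ∧ nr q p = 1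
    have hz : ∀ a : ZMod 2, a = 1 ∨ a = 0 := by decide
    have hadj : ∀ p ∈ S', ∀ q ∈ S', p ≠ q → (G.Adj p q ↔ nr p q = 1) := by
      intro p hp q hq hpq
      have e := hsy p (mem_filter.1 hp).1 q (mem_filter.1 hq).1 (hall p hp) (hall q hq)
      simp only [G, SimpleGraph.fromRel_adj]
      rw [← e]
      tauto
    rcases Pool.Agent.H265R2.CritP4.ramsey G (2 * k) k k (by omega) S' hy with
      ⟨A, hA, hk, h⟩ | ⟨A, hA, hk, h⟩
    · refine ⟨A, hA.trans (filter_subset _ _), hk, fun q hq r hr => full_col (hfull A hA q hq r hr),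
        fun i hi q hq r hr => full_nr (hfull A hA q hq r hr) hi, ?_⟩
      intro _ p hp q hq r hr s hs hpq hrs
      rw [(hadj p (hA hp) q (hA hq) hpq).1 (h p hp q hq hpq),
        (hadj r (hA hr) s (hA hs) hrs).1 (h r hr s hs hrs)]
    · refine ⟨A, hA.trans (filter_subset _ _), hk, fun q hq r hr => full_col (hfull A hA q hq r hr),
        fun i hi q hq r hr => full_nr (hfull A hA q hq r hr) hi, ?_⟩
      intro _ p hp q hq r hr s hs hpq hrs
      have e1 : nr p q = 0 := (hz _).resolve_left fun e =>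
        h p hp q hq ((hadj p (hA hp) q (hA hq) hpq).2 e)
      have e2 : nr r s = 0 := (hz _).resolve_left fun e =>
        h r hr s hs ((hadj r (hA hr) s (hA hs) hrs).2 e)
      rw [e1, e2]
  · push Not at hall
    obtain ⟨q₀, hq₀, hn⟩ := hall
    have hk : k ≤ S'.card := by
      refine le_trans ?_ hy
      calc k ≤ 2 ^ k := Nat.lt_two_pow_self.le
        _ ≤ _ := Nat.pow_le_pow_right (by norm_num) (by omega)
    obtain ⟨A, hA, hAk⟩ := exists_subset_card_eq hk
    refine ⟨A, hA.trans (filter_subset _ _), hAk, fun q hq r hr => full_col (hfull A hA q hq r hr),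
      fun i hi q hq r hr => full_nr (hfull A hA q hq r hr) hi, ?_⟩
    intro hAH p hp
    have h2 := hH p (mem_filter.1 (hA hp)).1 q₀ (mem_filter.1 hq₀).1
      (full_col (hfull S' subset_rfl p (hA hp) q₀ hq₀))
    exact absurd (h2.1 (hAH p hp)) hn

/-- the infinite theorem of Ramsey -/
theorem hom_inf [Finite κ] (S : Set ℕ) (hS : S.Infinite)
    (hH : ∀ p ∈ S, ∀ q ∈ S, col p = col q → (H p ↔ H q))
    (hsy : ∀ p ∈ S, ∀ q ∈ S, H p → H q → nr p q = nr q p) :
    ∃ T ⊆ S, T.Infinite ∧ ∀ A : Finset ℕ, (A : Set ℕ) ⊆ T → Hom H nr col P A := by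
  have : Infinite S := hS.to_subtype
  obtain ⟨y, hy⟩ := Finite.exists_infinite_fiber (fun q : S => full nr col P (q : ℕ))
  set T₁ : Set ℕ := {q ∈ S | full nr col P q = y} with hT₁
  have hT₁i : T₁.Infinite := by
    refine ((Set.infinite_coe_iff.1 hy).image Subtype.val_injective.injOn).mono ?_
    rintro _ ⟨x, hx, rfl⟩
    exact ⟨x.2, hx⟩
  have hfull : ∀ q ∈ T₁, ∀ r ∈ T₁, full nr col P q = full nr col P r := fun q hq r hr =>
    hq.2.trans hr.2.symm
  by_cases hall : ∀ q ∈ T₁, H q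
  · have : Infinite T₁ := hT₁i.to_subtype
    let g : Finset T₁ → Set (ZMod 2) := fun s => {c | ∃ p ∈ s, ∃ q ∈ s, p ≠ q ∧ c = nr p q}
    obtain ⟨T₂, c, hT₂, h⟩ := Pool.Agent.H330.infinite_ramsey 2 g
    refine ⟨Subtype.val '' T₂, ?_, hT₂.image Subtype.val_injective.injOn, ?_⟩
    · rintro _ ⟨x, -, rfl⟩
      exact x.2.1
    intro A hA
    have hAS : ∀ q ∈ A, ∃ x : T₁, x ∈ T₂ ∧ (x : ℕ) = q := fun q hq => hA (mem_coe.2 hq)
    have hA1 : ∀ q ∈ A, q ∈ T₁ := by
      intro q hq
      obtain ⟨x, -, rfl⟩ := hAS q hq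
      exact x.2
    refine ⟨fun q hq r hr => full_col (hfull q (hA1 q hq) r (hA1 r hr)),
      fun i hi q hq r hr => full_nr (hfull q (hA1 q hq) r (hA1 r hr)) hi, ?_⟩
    intro _ p hp q hq r hr s hs hpq hrs
    obtain ⟨p, hp', rfl⟩ := hAS p hp
    obtain ⟨q, hq', rfl⟩ := hAS q hq
    obtain ⟨r, hr', rfl⟩ := hAS r hr
    obtain ⟨s, hs', rfl⟩ := hAS s hs
    have hpq' : p ≠ q := fun e => hpq (by rw [e])
    have hrs' : r ≠ s := fun e => hrs (by rw [e])
    have sub : ∀ a b : T₁, a ∈ T₂ → b ∈ T₂ → ((({a, b} : Finset T₁) : Set T₁) ⊆ T₂) := by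
      intro a b ha hb z hz
      have hz' := mem_coe.1 hz
      rcases mem_insert.1 hz' with rfl | hz'
      · exact ha
      · rw [mem_singleton.1 hz']
        exact hb
    have e1 := h {p, q} (card_pair hpq') (sub p q hp' hq')
    have e2 := h {r, s} (card_pair hrs') (sub r s hr' hs')
    have e3 : g {p, q} = g {r, s} := e1.trans e2.symm
    have e4 : nr (p : ℕ) (q : ℕ) ∈ g {p, q} :=
      ⟨p, mem_insert_self _ _, q, mem_insert_of_mem (mem_singleton_self _), hpq', rfl⟩
    rw [e3] at e4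
    obtain ⟨a, ha, b, hb, hab, he⟩ := e4
    have hsrs : nr (s : ℕ) (r : ℕ) = nr (r : ℕ) (s : ℕ) :=
      hsy _ s.2.1 _ r.2.1 (hall _ s.2) (hall _ r.2)
    rw [he]
    rcases mem_insert.1 ha with ha | ha <;> rcases mem_insert.1 hb with hb | hb
    · exact absurd (ha.trans hb.symm) hab
    · rw [ha, mem_singleton.1 hb]
    · rw [mem_singleton.1 ha, hb]
      exact hsrs
    · exact absurd ((mem_singleton.1 ha).trans (mem_singleton.1 hb).symm) hab
  · push Not at hall
    obtain ⟨q₀, hq₀, hn⟩ := hall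
    refine ⟨T₁, fun q hq => hq.1, hT₁i, fun A hA => ?_⟩
    have hA1 : ∀ q ∈ A, q ∈ T₁ := fun q hq => hA (mem_coe.2 hq)
    refine ⟨fun q hq r hr => full_col (hfull q (hA1 q hq) r (hA1 r hr)),
      fun i hi q hq r hr => full_nr (hfull q (hA1 q hq) r (hA1 r hr)) hi, ?_⟩
    intro hAH p hp
    have h2 := hH p (hA1 p hp).1 q₀ hq₀.1 (full_col (hfull p (hA1 p hp) q₀ hq₀))
    exact absurd (h2.1 (hAH p hp)) hn

/-- the kernel of an extension by a homogeneous set -/
theorem ks_hom (h0 : ∀ p, nr p p = 0) (hH : ∀ p ∈ A, ∀ q ∈ A, col p = col q → (H p ↔ H q))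
    (hd : Disjoint P A) (hs : ∀ q ∈ A, H q → ∀ i ∈ P, nr q i = nr i q)
    (hδ : ∀ q ∈ A, H q → dl nr f P q = 1) (hHom : Hom H nr col P A) (hA : Even A.card) :
    Nat.card (KS H nr f (P ∪ A)) = Nat.card (KS H nr f P) := by
  rcases A.eq_empty_or_nonempty with rfl | ⟨q₀, hq₀⟩
  · rw [union_empty]
  have hv : ∀ q ∈ A, ∀ i ∈ P, nr i q = (fun i => nr i q₀) i := fun q hq i hi =>
    hHom.vec i hi q hq q₀ hq₀
  by_cases hm : H q₀
  · have hm' : ∀ q ∈ A, H q := fun q hq => (hH q hq q₀ hq₀ (hHom.col q hq q₀ hq₀)).2 hm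
    by_cases hp : ∃ r ∈ A, r ≠ q₀
    · obtain ⟨r, hr, hrq⟩ := hp
      exact ks_split (c := nr r q₀) hd hA hv (fun q hq => hs q hq (hm' q hq)) hm'
        (fun p hp q hq hpq => hHom.pr hm' p hp q hq r hr q₀ hq₀ hpq hrq) h0
        fun q hq => hδ q hq (hm' q hq)
    · push Not at hp
      exact ks_split (c := 0) hd hA hv (fun q hq => hs q hq (hm' q hq)) hm'
        (fun p h1 q h2 hpq => absurd ((hp p h1).trans (hp q h2).symm) hpq) h0
        fun q hq => hδ q hq (hm' q hq)
  · have hm' : ∀ q ∈ A, ¬ H q := fun q hq h => hm ((hH q hq q₀ hq₀ (hHom.col q hq q₀ hq₀)).1 h)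
    rw [ks_inert hd hA hv hm']

/-- the kernel is finite -/
theorem ks_finite (S : Finset ℕ) : (KS H nr f S).Finite := by
  let g : (ℕ → ZMod 2) → (S → ZMod 2) := fun x i => x i
  refine Set.Finite.of_finite_image (f := g) (Set.toFinite _) ?_
  intro x hx y hy hxy
  funext p
  by_cases hp : p ∈ S
  · exact congrFun hxy ⟨p, hp⟩
  · rw [hx.1 p fun h => hp h.1, hy.1 p fun h => hp h.1]

/-- a homogeneous set of primes with `dl = 0` makes the kernel large -/
theorem ks_big (h0 : ∀ p, nr p p = 0) (hd : Disjoint P A) (hA : Even A.card)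
    (hv : ∀ q ∈ A, ∀ i ∈ P, nr i q = v i) (hm : ∀ q ∈ A, H q)
    (hc : ∀ p ∈ A, ∀ q ∈ A, p ≠ q → nr p q = c) (hδ : ∀ q ∈ A, dl nr f P q = 0) :
    A.card ≤ Nat.card (KS H nr f (P ∪ A)) + 1 := by
  rcases A.eq_empty_or_nonempty with rfl | ⟨p₀, hp₀⟩
  · rw [card_empty]
    exact Nat.zero_le _
  have h11 : ∀ z : ZMod 2, z + z = 0 := fun z => CharTwo.add_self_eq_zero z
  have hdP : ∀ p ∈ A, p ∉ P := fun p hp hp' => disjoint_left.1 hd hp' hp
  let x : ℕ → ℕ → ZMod 2 := fun r s => if s = p₀ ∨ s = r then 1 else 0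
  have hx : ∀ r ∈ A.erase p₀, x r ∈ KS H nr f (P ∪ A) := by
    intro r hr
    obtain ⟨hr0, hrA⟩ := mem_erase.1 hr
    have xP : ∀ s ∈ P, x r s = 0 := by
      intro s hs
      refine if_neg ?_
      rintro (rfl | rfl)
      · exact hdP _ hp₀ hs
      · exact hdP _ hrA hs
    have cP : ∀ s ∈ P, cu H (x r) s = 0 := by
      intro s hs
      unfold cu
      rw [xP s hs, ite_self]
    have cA : ∀ s ∈ A, cu H (x r) s = x r s := fun s hs => if_pos (hm s hs)
    have hX : ∑ s ∈ A, x r s = 0 := by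
      have h1 : ∑ s ∈ A, x r s = ∑ s ∈ ({p₀, r} : Finset ℕ), x r s := by
        symm
        refine sum_subset ?_ ?_
        · intro s hs
          rcases mem_insert.1 hs with rfl | hs
          · exact hp₀
          · rw [mem_singleton.1 hs]
            exact hrA
        · intro s _ hs
          refine if_neg fun h => hs ?_
          rw [mem_insert, mem_singleton]
          exact h
      rw [h1, sum_pair hr0.symm]
      have e1 : x r p₀ = 1 := if_pos (Or.inl rfl)
      have e2 : x r r = 1 := if_pos (Or.inr rfl)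
      rw [e1, e2, h11]
    have key : ∀ (p : ℕ) (g : ZMod 2), ∑ q ∈ A, g * (cu H (x r) q + x r p) = 0 := by
      intro p g
      rw [← mul_sum, sum_add_distrib, sum_congr rfl cA, sum_const, nsmul_eq_mul, even_cast hA,
        zero_mul, add_zero, hX, mul_zero]
    refine ⟨fun s hs => ?_, fun i hi hi1 => ?_⟩
    · refine if_neg ?_
      rintro (rfl | rfl)
      · exact hs ⟨mem_union_right _ hp₀, hm _ hp₀⟩
      · exact hs ⟨mem_union_right _ hrA, hm _ hrA⟩
    · rw [eq_old hd]
      rcases mem_union.1 hi with hiP | hiA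
      · rw [xP i hiP, mul_zero, add_zero, sum_eq_zero fun s hs => by rw [cP s hs, add_zero, mul_zero],
          zero_add]
        have h3 := key i (v i)
        rw [xP i hiP] at h3
        refine Eq.trans ?_ h3
        exact sum_congr rfl fun q hq => by rw [hv q hq i hiP]
      · have h4 : ∑ q ∈ P, nr i q * (cu H (x r) q + x r i) + f i * x r i = 0 := by
          have h5 := hδ i hiA
          unfold dl at h5
          have h6 : ∑ q ∈ P, nr i q * (cu H (x r) q + x r i) = (∑ q ∈ P, nr i q) * x r i := by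
            rw [sum_mul]
            exact sum_congr rfl fun q hq => by rw [cP q hq, zero_add]
          rw [h6]
          linear_combination (x r i) * h5
        rw [h4, zero_add, ← key i c]
        refine sum_congr rfl fun q hq => ?_
        by_cases hiq : i = q
        · subst hiq
          rw [h0, cA i hiA, h11, mul_zero, mul_zero]
        · rw [hc i hiA q hq hiq]
  have hfin := ks_finite (H := H) (nr := nr) (f := f) (P ∪ A)
  have hinj : Set.InjOn x (↑(A.erase p₀) : Set ℕ) := by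
    intro r hr s hs he
    have hr' := mem_erase.1 (mem_coe.1 hr)
    have h1 : x r r = 1 := if_pos (Or.inr rfl)
    rw [he] at h1
    by_contra hne
    have h2 : x s r = 0 := if_neg (by rintro (h | h); exacts [hr'.1 h, hne h])
    rw [h2] at h1
    exact zero_ne_one h1
  have h1 : (A.erase p₀).card ≤ (KS H nr f (P ∪ A)).ncard := by
    rw [← Set.ncard_coe_finset, ← Set.InjOn.ncard_image hinj]
    refine Set.ncard_le_ncard ?_ hfin
    rintro _ ⟨r, hr, rfl⟩
    exact hx r (mem_coe.1 hr)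
  rw [card_erase_of_mem hp₀, ← Nat.card_coe_set_eq] at h1
  omega

/-- double counting -/
theorem count (S : Finset ℕ) (k N : ℕ) (Q : Finset ℕ → Prop) (hkN : k ≤ N) (hN : N ≤ S.card)
    (h : ∀ B ⊆ S, B.card = N → ∃ A ⊆ B, A.card = k ∧ Q A) :
    S.card.choose k ≤ N.choose k * ((S.powersetCard k).filter Q).card := by
  set n := S.card with hn
  have h1 : (S.powersetCard N).card ≤
      ((S.powersetCard k).filter Q).card * (n - k).choose (N - k) := by
    have h2 : ∑ B ∈ S.powersetCard N, 1 ≤ ∑ B ∈ S.powersetCard N,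
        (((S.powersetCard k).filter Q).filter fun A => A ⊆ B).card := by
      refine sum_le_sum fun B hB => ?_
      obtain ⟨hB1, hB2⟩ := mem_powersetCard.1 hB
      obtain ⟨A, hA, hAk, hQ⟩ := h B hB1 hB2
      refine card_pos.2 ⟨A, ?_⟩
      rw [mem_filter, mem_filter, mem_powersetCard]
      exact ⟨⟨⟨hA.trans hB1, hAk⟩, hQ⟩, hA⟩
    rw [sum_const, smul_eq_mul, mul_one] at h2
    refine h2.trans ?_
    have h3 : ∑ B ∈ S.powersetCard N,
        (((S.powersetCard k).filter Q).filter fun A => A ⊆ B).card =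
        ∑ A ∈ (S.powersetCard k).filter Q, ((S.powersetCard N).filter fun B => A ⊆ B).card := by
      simp only [card_filter]
      rw [sum_comm]
    rw [h3, ← smul_eq_mul, ← sum_const]
    refine sum_le_sum fun A hA => ?_
    obtain ⟨hA1, -⟩ := mem_filter.1 hA
    obtain ⟨hA2, hA3⟩ := mem_powersetCard.1 hA1
    have h4 : ((S.powersetCard N).filter fun B => A ⊆ B).card ≤
        ((S \ A).powersetCard (N - k)).card := by
      refine card_le_card_of_injOn (fun B => B \ A) ?_ ?_
      · intro B hB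
        obtain ⟨hB1, hB2⟩ := mem_filter.1 hB
        obtain ⟨hB3, hB4⟩ := mem_powersetCard.1 hB1
        refine mem_coe.2 (mem_powersetCard.2 ⟨sdiff_subset_sdiff hB3 subset_rfl, ?_⟩)
        rw [card_sdiff_of_subset hB2, hB4, hA3]
      · intro B hB B' hB' he
        have e1 := (mem_filter.1 (mem_coe.1 hB)).2
        have e2 := (mem_filter.1 (mem_coe.1 hB')).2
        have he' : B \ A = B' \ A := he
        rw [← sdiff_union_of_subset e1, ← sdiff_union_of_subset e2, he']
    refine h4.trans ?_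
    rw [card_powersetCard, card_sdiff_of_subset hA2, hA3]
  rw [card_powersetCard] at h1
  have h5 : n.choose N * N.choose k = n.choose k * (n - k).choose (N - k) :=
    Nat.choose_mul hkN
  have h6 : 0 < (n - k).choose (N - k) := Nat.choose_pos (by omega)
  have h7 : n.choose k * (n - k).choose (N - k) ≤
      (N.choose k * ((S.powersetCard k).filter Q).card) * (n - k).choose (N - k) := by
    rw [← h5]
    calc n.choose N * N.choose k ≤
        (((S.powersetCard k).filter Q).card * (n - k).choose (N - k)) * N.choose k :=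
          Nat.mul_le_mul_right _ h1
      _ = _ := by ring
  exact Nat.le_of_mul_le_mul_right h7 h6

end Pool.Agent.U707.SHA
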