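import Pool.Agent.U707.SHA.Link
import Pool.Agent.U739.GE.GOOD
import Pool.Agent.U796.GE.BND

/-!
# Selmer groups in arbitrary sets of primes
-/

set_option autoImplicit false
set_option linter.unusedSectionVars false
set_option linter.unusedVariables false

open scoped Classical

namespace Pool.Agent.U707.SHA

open Finset
open Pool.Agent.U115.GE
open Pool.Agent.Y698.SG (nq nq_prod nq_zero)
open Pool.Agent.TH841.NF.D (rk Sha)

variable {a b : ℤ} {D : ℕ}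

/-- the Selmer groups of the twist and the bound of the rank -/
theorem sel_cl (hb : b ≠ 0) (hc : a ^ 2 - 4 * b ≠ 0) (h : Class a b D) :
    sel (a * D) (b * D ^ 2) = kap a b D * sel a b ∧
    sel (-2 * (a * D)) ((a * D) ^ 2 - 4 * (b * D ^ 2)) =
      kap a b D * sel (-2 * a) (a ^ 2 - 4 * b) ∧
    Finite {x : Sha (twE a b D) // 2 • x = 0} ∧
    4 * 2 ^ rk (twE a b D) * Nat.card {x : Sha (twE a b D) // 2 • x = 0} ≤
      sel (a * D) (b * D ^ 2) * sel (-2 * (a * D)) ((a * D) ^ 2 - 4 * (b * D ^ 2)) := by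
  have H := class_hg hb hc h
  have hG := Pool.Agent.U739.GE.t_GOOD
  have hB := Pool.Agent.U796.GE.t_BND
  have hDe := prod_eq (a := a) (b := b) h.1
  have h1 := H.sel_eq hG
  have h2 := H.sel_eq' hG
  rw [← hDe] at h1 h2
  have h3 := hB (a * (D : ℤ)) (b * (D : ℤ) ^ 2) (H.b0 hDe) (H.c0 hDe)
  rw [← twE_eq] at h3
  exact ⟨h1, h2, h3⟩

/-- admissible primes -/
def Adm (a b : ℤ) (D p : ℕ) : Prop := SI a b p ∧ NoRoot a b D p

/-- `kap` is the same -/
def Same (a b : ℤ) (D D' : ℕ) : Prop := Class a b D' ∧ kap a b D' = kap a b D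

lemma si_symm {p q : ℕ} (hp : SI a b p) (hr : Res a b p) (hq : SI a b q) : nq p q = nq q p :=
  nq_symm hp.1 hr.1 hq.1 hq.two

/-- homogeneous extensions by admissible primes -/
theorem ext_adm (hb : b ≠ 0) (hc : a ^ 2 - 4 * b ≠ 0) (hD : Class a b D) {A : Finset ℕ}
    (hA : Even A.card) (hS : ∀ p ∈ A, Adm a b D p)
    (hH : Hom (Res a b) nq (cl a b) D.primeFactors A) : Same a b D (D * ∏ p ∈ A, p) := by
  obtain ⟨h1, h2⟩ := mul_fac hb hc hD hA (fun p hp => (hS p hp).1) (fun p hp => (hS p hp).2.nd)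
    hH.col
  refine ⟨h1, ?_⟩
  rw [← card_ks hb hc h1, ← card_ks hb hc hD, h2]
  refine ks_hom nq_self (fun p hp q hq => res_iff_of_cl hb hc (hS p hp).1 (hS q hq).1) ?_
    (fun q hq hr i hi => si_symm (hS q hq).1 hr (class_si hD hi)) (fun q hq hr => ?_) hH hA
  · rw [disjoint_left]
    intro i hi hiA
    exact (hS i hiA).2.nd (Nat.dvd_of_mem_primeFactors hi)
  · exact (noRoot_split hD (hS q hq).1.1 hr (hS q hq).2.nd).1 (hS q hq).2

/-- finite sets -/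
theorem fin_adm (hb : b ≠ 0) (hc : a ^ 2 - 4 * b ≠ 0) (hD : Class a b D) {k : ℕ} (hk : Even k)
    (S : Finset ℕ) (hS : ∀ p ∈ S, Adm a b D p)
    (hN : 2 ^ (2 * k + D.primeFactors.card + (bad a b).card + 2) ≤ S.card) :
    S.card.choose k ≤ (2 ^ (2 * k + D.primeFactors.card + (bad a b).card + 2)).choose k *
      ((S.powersetCard k).filter fun A => Same a b D (D * ∏ p ∈ A, p)).card := by
  refine count S k _ _ ?_ hN ?_
  · calc k ≤ 2 ^ k := Nat.lt_two_pow_self.le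
      _ ≤ _ := Nat.pow_le_pow_right (by norm_num) (by omega)
  · intro B hB hBN
    obtain ⟨A, hA, hAk, hH⟩ := hom_fin (H := Res a b) (nr := nq) (col := cl a b)
      (P := D.primeFactors) B k
      (fun p hp q hq => res_iff_of_cl hb hc (hS p (hB hp)).1 (hS q (hB hq)).1)
      (fun p hp q hq h _ => si_symm (hS p (hB hp)).1 h (hS q (hB hq)).1) (by
        rw [card_cl, hBN, ← pow_add, ← pow_add]
        exact Nat.pow_le_pow_right (by norm_num) (by omega))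
    exact ⟨A, hA, hAk, ext_adm hb hc hD (by rwa [hAk]) (fun p hp => hS p (hB (hA hp))) hH⟩

/-- infinite sets -/
theorem inf_adm (hb : b ≠ 0) (hc : a ^ 2 - 4 * b ≠ 0) (hD : Class a b D) (S : Set ℕ)
    (hi : S.Infinite) (hS : ∀ p ∈ S, Adm a b D p) :
    ∃ T ⊆ S, T.Infinite ∧ ∀ A : Finset ℕ, (A : Set ℕ) ⊆ T → Even A.card →
      Same a b D (D * ∏ p ∈ A, p) := by
  obtain ⟨T, hTS, hT, h⟩ := hom_inf (H := Res a b) (nr := nq) (col := cl a b)
    (P := D.primeFactors) S hi (fun p hp q hq => res_iff_of_cl hb hc (hS p hp).1 (hS q hq).1)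
    (fun p hp q hq h _ => si_symm (hS p hp).1 h (hS q hq).1)
  exact ⟨T, hTS, hT, fun A hA hAe => ext_adm hb hc hD hAe
    (fun p hp => hS p (hTS (hA (mem_coe.2 hp)))) (h A hA)⟩

/-- the Selmer groups of the twists are unbounded if only finitely many primes are admissible -/
theorem unb (hb : b ≠ 0) (hc : a ^ 2 - 4 * b ≠ 0) (hD : Class a b D) (T : Set ℕ)
    (hi : T.Infinite) (hS : ∀ p ∈ T, SI a b p) (hf : {p ∈ T | NoRoot a b D p}.Finite) (M : ℕ) :
    ∃ A : Finset ℕ, (A : Set ℕ) ⊆ T ∧ Even A.card ∧ Class a b (D * ∏ p ∈ A, p) ∧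
      M ≤ kap a b (D * ∏ p ∈ A, p) := by
  have h1 : (T \ ({p ∈ T | NoRoot a b D p} ∪ (D.primeFactors : Set ℕ))).Infinite :=
    hi.sdiff (hf.union D.primeFactors.finite_toSet)
  set T' := T \ ({p ∈ T | NoRoot a b D p} ∪ (D.primeFactors : Set ℕ)) with hT'
  have hz : ∀ a : ZMod 2, a = 1 ∨ a = 0 := by decide
  have hT1 : ∀ p ∈ T', SI a b p ∧ ¬ p ∣ D ∧ Res a b p ∧
      dl nq (thetaG a b) D.primeFactors p = 0 := by
    rintro p ⟨hp, hp'⟩
    rw [Set.mem_union, not_or] at hp'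
    have hsi := hS p hp
    have hnr : ¬ NoRoot a b D p := fun h => hp'.1 ⟨hp, h⟩
    have hnd : ¬ p ∣ D := fun h =>
      hp'.2 (mem_coe.2 (Nat.mem_primeFactors.2 ⟨hsi.1, h, hD.1.ne_zero⟩))
    have hr : Res a b p := hsi.2.resolve_right fun h => hnr (noRoot_inert h hnd)
    refine ⟨hsi, hnd, hr, (hz _).resolve_left fun h => hnr ?_⟩
    exact (noRoot_split hD hsi.1 hr hnd).2 h
  obtain ⟨T₂, hT₂, hT₂i, h⟩ := hom_inf (H := Res a b) (nr := nq) (col := cl a b)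
    (P := D.primeFactors) T' h1
    (fun p hp q hq => res_iff_of_cl hb hc (hT1 p hp).1 (hT1 q hq).1)
    (fun p hp q hq h _ => si_symm (hT1 p hp).1 h (hT1 q hq).1)
  obtain ⟨A, hA, hAc⟩ := hT₂i.exists_subset_card_eq (2 * (M + 1))
  have hAT : ∀ p ∈ A, p ∈ T' := fun p hp => hT₂ (hA (mem_coe.2 hp))
  have hAe : Even A.card := by
    rw [hAc]
    exact even_two_mul _
  have hH := h A hA
  obtain ⟨h2, h3⟩ := mul_fac hb hc hD hAe (fun p hp => (hT1 p (hAT p hp)).1)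
    (fun p hp => (hT1 p (hAT p hp)).2.1) hH.col
  refine ⟨A, fun p hp => (hAT p (mem_coe.1 hp)).1, hAe, h2, ?_⟩
  rw [← card_ks hb hc h2, h3]
  have hdj : Disjoint D.primeFactors A := by
    rw [disjoint_left]
    intro i hi' hiA
    exact (hT1 i (hAT i hiA)).2.1 (Nat.dvd_of_mem_primeFactors hi')
  have hm : ∀ q ∈ A, Res a b q := fun q hq => (hT1 q (hAT q hq)).2.2.1
  obtain ⟨p₀, hp₀, q₀, hq₀, hpq⟩ : ∃ p ∈ A, ∃ q ∈ A, p ≠ q := by
    have : 1 < A.card := by omega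
    exact one_lt_card.1 this
  have h4 := ks_big (H := Res a b) (nr := nq) (f := thetaG a b) (P := D.primeFactors) (A := A)
    (v := fun i => nq i p₀) (c := nq p₀ q₀) nq_self hdj hAe
    (fun q hq i hi' => hH.vec i hi' q hq p₀ hp₀) hm
    (fun p hp q hq hne => hH.pr hm p hp q hq p₀ hp₀ q₀ hq₀ hne hpq)
    (fun q hq => (hT1 q (hAT q hq)).2.2.2)
  omega

/-- **the dichotomy** -/
theorem inf_iff (hb : b ≠ 0) (hc : a ^ 2 - 4 * b ≠ 0) (hD : Class a b D) (S : Set ℕ)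
    (hS : ∀ p ∈ S, SI a b p) :
    List.TFAE [{p ∈ S | Adm a b D p}.Infinite,
      ∃ T ⊆ S, T.Infinite ∧ ∀ A : Finset ℕ, (A : Set ℕ) ⊆ T → Even A.card →
        Same a b D (D * ∏ p ∈ A, p),
      ∃ T ⊆ S, T.Infinite ∧ ∃ M, ∀ A : Finset ℕ, (A : Set ℕ) ⊆ T → Even A.card →
        Class a b (D * ∏ p ∈ A, p) → kap a b (D * ∏ p ∈ A, p) ≤ M] := by
  tfae_have 1 → 2 := by
    intro h
    obtain ⟨T, hT, h1, h2⟩ := inf_adm hb hc hD _ h fun p hp => hp.2
    exact ⟨T, fun p hp => (hT hp).1, h1, h2⟩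
  tfae_have 2 → 3 := by
    rintro ⟨T, hT, h1, h2⟩
    exact ⟨T, hT, h1, kap a b D, fun A hA hAe _ => (h2 A hA hAe).2.le⟩
  tfae_have 3 → 1 := by
    rintro ⟨T, hT, h1, M, h2⟩
    by_contra hf
    rw [Set.not_infinite] at hf
    obtain ⟨A, hA, hAe, h3, h4⟩ := unb hb hc hD T h1 (fun p hp => hS p (hT hp))
      (hf.subset fun p hp => ⟨hT hp.1, hS p (hT hp.1), hp.2⟩) (M + 1)
    have := h2 A hA hAe h3
    omega
  tfae_finish

/-- the minimal case -/
theorem tt_iff (hb : b ≠ 0) (hc : a ^ 2 - 4 * b ≠ 0) (nb : ¬ IsSquare b)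
    (nc : ¬ IsSquare (a ^ 2 - 4 * b)) (h4 : sel a b * sel (-2 * a) (a ^ 2 - 4 * b) = 4)
    (hD : Class a b D) :
    (Finite (twE a b D).toAffine.Point ∧ ∀ (n : ℕ) (x : Sha (twE a b D)), 2 ^ n • x = 0 → x = 0) ↔
      kap a b D = 1 :=
  (class_hg hb hc hD).iff Pool.Agent.U739.GE.t_GOOD Pool.Agent.U796.GE.t_BND nb nc h4
    (prod_eq hD.1)

end Pool.Agent.U707.SHA
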