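import Mathlib

/-!
# Kernels of Laplacian matrices of sets of primes and homogeneous extensions

`H` is a set of natural numbers (the split primes), `nr` a function with values in the field with two
elements (the quadratic symbol), `f` the diagonal. `KS H nr f S` is the kernel of the matrix of the set
`S`. If `A` has an even number of elements, and is homogeneous over `P`, then the kernels of `P ∪ A` and
of `P` have the same number of elements (after `Pool/Agent/U693/X49/Comb.lean`, where the kernel is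
trivial).
-/

set_option autoImplicit false
set_option linter.unusedSectionVars false

open scoped Classical

namespace Pool.Agent.U707.SHA

open Finset

/-- `x` set to zero off the split primes -/
noncomputable def cu (H : ℕ → Prop) (x : ℕ → ZMod 2) (q : ℕ) : ZMod 2 := if H q then x q else 0

/-- the equations of the kernel -/
def Sol (H : ℕ → Prop) (nr : ℕ → ℕ → ZMod 2) (f : ℕ → ZMod 2) (S : Finset ℕ)
    (x : ℕ → ZMod 2) : Prop :=
  ∀ p ∈ S, H p → ∑ q ∈ S, nr p q * (cu H x q + x p) + f p * x p = 0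

/-- the kernel -/
def KS (H : ℕ → Prop) (nr : ℕ → ℕ → ZMod 2) (f : ℕ → ZMod 2) (S : Finset ℕ) : Set (ℕ → ZMod 2) :=
  {x | (∀ p, ¬ (p ∈ S ∧ H p) → x p = 0) ∧ Sol H nr f S x}

lemma even_cast {n : ℕ} (h : Even n) : (n : ZMod 2) = 0 := by
  obtain ⟨m, rfl⟩ := h
  push_cast
  exact CharTwo.add_self_eq_zero _

variable {H : ℕ → Prop} {nr : ℕ → ℕ → ZMod 2} {f v : ℕ → ZMod 2} {P A : Finset ℕ} {c : ZMod 2}

/-- the equation at a prime of `P` -/
lemma eq_old (hd : Disjoint P A) {x : ℕ → ZMod 2} {i : ℕ} :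
    ∑ q ∈ P ∪ A, nr i q * (cu H x q + x i) + f i * x i =
      (∑ q ∈ P, nr i q * (cu H x q + x i) + f i * x i) + ∑ q ∈ A, nr i q * (cu H x q + x i) := by
  rw [sum_union hd]
  ring

/-- inert primes -/
theorem ks_inert (hd : Disjoint P A) (hA : Even A.card)
    (hv : ∀ q ∈ A, ∀ i ∈ P, nr i q = v i) (hm : ∀ q ∈ A, ¬ H q) :
    KS H nr f (P ∪ A) = KS H nr f P := by
  have h0 : ∀ (x : ℕ → ZMod 2) (i : ℕ), i ∈ P → ∑ q ∈ A, nr i q * (cu H x q + x i) = 0 := by
    intro x i hi
    have h3 : ∀ q ∈ A, nr i q * (cu H x q + x i) = v i * x i := by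
      intro q hq
      rw [hv q hq i hi]
      unfold cu
      rw [if_neg (hm q hq), zero_add]
    rw [sum_congr rfl h3, sum_const, nsmul_eq_mul, even_cast hA, zero_mul]
  ext x
  constructor
  · rintro ⟨h1, h2⟩
    refine ⟨fun p hp => h1 p fun h => hp ⟨?_, h.2⟩, fun p hp hp1 => ?_⟩
    · rcases mem_union.1 h.1 with h' | h'
      · exact h'
      · exact absurd h.2 (hm p h')
    · have h3 := h2 p (mem_union_left _ hp) hp1
      rw [eq_old hd, h0 x p hp, add_zero] at h3
      exact h3
  · rintro ⟨h1, h2⟩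
    refine ⟨fun p hp => h1 p fun h => hp ⟨mem_union_left _ h.1, h.2⟩, fun p hp hp1 => ?_⟩
    have hpP : p ∈ P := by
      rcases mem_union.1 hp with h | h
      · exact h
      · exact absurd hp1 (hm p h)
    rw [eq_old hd, h0 x p hpP, add_zero]
    exact h2 p hpP hp1

/-- `dl f P q = f q + ∑ nr q l` over the `l` in `P`. -/
noncomputable def dl (nr : ℕ → ℕ → ZMod 2) (f : ℕ → ZMod 2) (P : Finset ℕ) (q : ℕ) : ZMod 2 :=
  f q + ∑ l ∈ P, nr q l

/-- split primes -/
theorem ks_split (hd : Disjoint P A) (hA : Even A.card)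
    (hv : ∀ q ∈ A, ∀ i ∈ P, nr i q = v i) (hs : ∀ q ∈ A, ∀ i ∈ P, nr q i = nr i q)
    (hm : ∀ q ∈ A, H q) (hc : ∀ p ∈ A, ∀ q ∈ A, p ≠ q → nr p q = c) (h0 : ∀ p, nr p p = 0)
    (hδ : ∀ q ∈ A, dl nr f P q = 1) :
    Nat.card (KS H nr f (P ∪ A)) = Nat.card (KS H nr f P) := by
  -- the value at the new primes
  set Y : (ℕ → ZMod 2) → ZMod 2 := fun x => ∑ q ∈ P, v q * cu H x q with hY
  have hcu : ∀ (x : ℕ → ZMod 2), ∀ q ∈ A, cu H x q = x q := fun x q hq => if_pos (hm q hq)
  have h11 : ∀ z : ZMod 2, z + z = 0 := fun z => CharTwo.add_self_eq_zero z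
  have key : ∀ (x : ℕ → ZMod 2) (p : ℕ) (g : ZMod 2),
      ∑ q ∈ A, g * (cu H x q + x p) = g * ∑ q ∈ A, x q := by
    intro x p g
    rw [← mul_sum, sum_add_distrib, sum_congr rfl (hcu x), sum_const, nsmul_eq_mul, even_cast hA,
      zero_mul, add_zero]
  -- the equation at a new prime
  have hnew : ∀ (x : ℕ → ZMod 2), ∀ p ∈ A,
      ∑ q ∈ P ∪ A, nr p q * (cu H x q + x p) + f p * x p = Y x + c * (∑ q ∈ A, x q) + x p := by
    intro x p hp
    rw [sum_union hd]
    have h2 : ∑ q ∈ P, nr p q * (cu H x q + x p) = Y x + (∑ q ∈ P, nr p q) * x p := by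
      simp only [mul_add, sum_add_distrib, ← sum_mul]
      congr 1
      refine sum_congr rfl fun q hq => ?_
      rw [hs p hp q hq, hv p hp q hq]
    have h3 : ∑ q ∈ A, nr p q * (cu H x q + x p) = c * ∑ q ∈ A, x q := by
      rw [← key x p c]
      refine sum_congr rfl fun q hq => ?_
      by_cases hpq : p = q
      · subst hpq
        rw [h0, hcu x p hp, h11, mul_zero, mul_zero]
      · rw [hc p hp q hq hpq]
    rw [h2, h3]
    have h4 := hδ p hp
    unfold dl at h4
    have h5 : (f p + ∑ q ∈ P, nr p q) * x p = x p := by rw [h4, one_mul]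
    linear_combination h5
  have hold : ∀ (x : ℕ → ZMod 2), ∀ i ∈ P, ∑ q ∈ A, nr i q * (cu H x q + x i) =
      v i * ∑ q ∈ A, x q := by
    intro x i hi
    rw [← key x i (v i)]
    exact sum_congr rfl fun q hq => by rw [hv q hq i hi]
  -- a solution
  have hsol : ∀ x ∈ KS H nr f (P ∪ A), (∀ p ∈ A, x p = Y x) ∧ ∑ q ∈ A, x q = 0 := by
    rintro x ⟨-, hx⟩
    have h1 : ∀ p ∈ A, x p = Y x + c * ∑ q ∈ A, x q := by
      intro p hp
      have h2 := hx p (mem_union_right _ hp) (hm p hp)
      rw [hnew x p hp] at h2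
      exact (CharTwo.add_eq_zero.1 h2).symm
    have h2 : ∑ q ∈ A, x q = 0 := by
      rw [sum_congr rfl h1, sum_const, nsmul_eq_mul, even_cast hA, zero_mul]
    refine ⟨fun p hp => ?_, h2⟩
    rw [h1 p hp, h2, mul_zero, add_zero]
  have hdP : ∀ p ∈ A, p ∉ P := fun p hp hp' => disjoint_left.1 hd hp' hp
  refine Nat.card_congr ?_
  refine
    { toFun := fun x => ⟨fun p => if p ∈ P then x.1 p else 0, ?_⟩
      invFun := fun y => ⟨fun p => if p ∈ A then Y y.1 else y.1 p, ?_⟩
      left_inv := ?_
      right_inv := ?_ }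
  · obtain ⟨x, hx⟩ := x
    obtain ⟨h1, h2⟩ := hsol x hx
    obtain ⟨hx1, hx2⟩ := hx
    refine ⟨fun p hp => ?_, fun p hp hp1 => ?_⟩
    · by_cases hpP : p ∈ P
      · simp only [if_pos hpP]
        refine hx1 p fun h => hp ⟨hpP, h.2⟩
      · simp only [if_neg hpP]
    · have h3 := hx2 p (mem_union_left _ hp) hp1
      rw [eq_old hd, hold x p hp, h2, mul_zero, add_zero] at h3
      simp only [if_pos hp]
      refine Eq.trans ?_ h3
      congr 1
      refine sum_congr rfl fun q hq => ?_
      unfold cu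
      simp only [if_pos hq]
  · obtain ⟨y, hy1, hy2⟩ := y
    set x : ℕ → ZMod 2 := fun p => if p ∈ A then Y y else y p with hx
    have xA : ∀ p ∈ A, x p = Y y := fun p hp => if_pos hp
    have xP : ∀ p ∈ P, x p = y p := fun p hp => if_neg fun h => hdP p h hp
    have cP : ∀ p ∈ P, cu H x p = cu H y p := by
      intro p hp
      unfold cu
      rw [xP p hp]
    have hYx : Y x = Y y := sum_congr rfl fun q hq => by rw [cP q hq]
    have hX : ∑ q ∈ A, x q = 0 := by
      rw [sum_congr rfl xA, sum_const, nsmul_eq_mul, even_cast hA, zero_mul]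
    refine ⟨fun p hp => ?_, fun p hp hp1 => ?_⟩
    · show x p = 0
      by_cases hpA : p ∈ A
      · exact absurd ⟨mem_union_right _ hpA, hm p hpA⟩ hp
      · have : x p = y p := if_neg hpA
        rw [this]
        refine hy1 p fun h => hp ⟨mem_union_left _ h.1, h.2⟩
    · show ∑ q ∈ P ∪ A, nr p q * (cu H x q + x p) + f p * x p = 0
      rcases mem_union.1 hp with hpP | hpA
      · rw [eq_old hd, hold x p hpP, hX, mul_zero, add_zero, xP p hpP]
        refine Eq.trans ?_ (hy2 p hpP hp1)
        congr 1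
        exact sum_congr rfl fun q hq => by rw [cP q hq]
      · rw [hnew x p hpA, hX, mul_zero, add_zero, hYx, xA p hpA, h11]
  · rintro ⟨x, hx⟩
    obtain ⟨h1, h2⟩ := hsol x hx
    apply Subtype.ext
    funext p
    show (if p ∈ A then Y (fun p => if p ∈ P then x p else 0) else if p ∈ P then x p else 0) = x p
    by_cases hpA : p ∈ A
    · rw [if_pos hpA, h1 p hpA]
      refine sum_congr rfl fun q hq => ?_
      unfold cu
      simp only [if_pos hq]
    · rw [if_neg hpA]
      by_cases hpP : p ∈ P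
      · rw [if_pos hpP]
      · rw [if_neg hpP]
        refine (hx.1 p fun h => ?_).symm
        rcases mem_union.1 h.1 with h' | h'
        · exact hpP h'
        · exact hpA h'
  · rintro ⟨y, hy⟩
    apply Subtype.ext
    funext p
    show (if p ∈ P then (if p ∈ A then Y y else y p) else 0) = y p
    by_cases hpP : p ∈ P
    · rw [if_pos hpP, if_neg fun h => hdP p h hpP]
    · rw [if_neg hpP]
      exact (hy.1 p fun h => hpP h.1).symm

/-- two primes with `dl = 0` and the same symbols give a new element of the kernel -/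
theorem ks_pair {p q : ℕ} (h0 : ∀ p, nr p p = 0) (hpq : p ≠ q) (hp : p ∉ P) (hq : q ∉ P)
    (mp : H p) (mq : H q) (hsy : nr p q = nr q p) (dp : dl nr f P p = 0) (dq : dl nr f P q = 0)
    (hc : ∀ i ∈ P, nr i p = nr i q) : (fun r => if r = p ∨ r = q then 1 else 0) ∈
      KS H nr f (P ∪ {p, q}) := by
  have hd : Disjoint P {p, q} := by
    rw [disjoint_left]
    intro i hi hi'
    rcases mem_insert.1 hi' with rfl | h'
    · exact hp hi
    · rw [mem_singleton.1 h'] at hi
      exact hq hi
  have h11 : ∀ z : ZMod 2, z + z = 0 := fun z => CharTwo.add_self_eq_zero z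
  set x : ℕ → ZMod 2 := fun r => if r = p ∨ r = q then 1 else 0 with hx
  have xP : ∀ r ∈ P, x r = 0 := by
    intro r hr
    refine if_neg ?_
    rintro (rfl | rfl)
    · exact hp hr
    · exact hq hr
  have xp : x p = 1 := if_pos (Or.inl rfl)
  have xq : x q = 1 := if_pos (Or.inr rfl)
  have cP : ∀ r ∈ P, cu H x r = 0 := by
    intro r hr
    unfold cu
    rw [xP r hr, ite_self]
  have cp : cu H x p = 1 := by unfold cu; rw [if_pos mp, xp]
  have cq : cu H x q = 1 := by unfold cu; rw [if_pos mq, xq]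
  refine ⟨fun r hr => ?_, fun i hi hi1 => ?_⟩
  · refine if_neg ?_
    rintro (rfl | rfl)
    · exact hr ⟨mem_union_right _ (mem_insert_self _ _), mp⟩
    · exact hr ⟨mem_union_right _ (mem_insert_of_mem (mem_singleton_self _)), mq⟩
  · rw [eq_old hd, sum_pair hpq, cp, cq]
    rcases mem_union.1 hi with hiP | hi'
    · rw [xP i hiP, mul_zero, add_zero, hc i hiP]
      rw [sum_eq_zero fun r hr => by rw [cP r hr, add_zero, mul_zero]]
      linear_combination h11 (nr i q)
    · have hz : ∑ r ∈ P, nr i r * (cu H x r + x i) = (∑ r ∈ P, nr i r) * x i := by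
        rw [sum_mul]
        exact sum_congr rfl fun r hr => by rw [cP r hr, zero_add]
      rw [hz]
      rcases mem_insert.1 hi' with rfl | h'
      · rw [xp, h0, h11, mul_zero, zero_add]
        unfold dl at dp
        linear_combination dp + h11 0
      · rw [mem_singleton.1 h', xq, h0, h11, mul_zero, mul_zero, add_zero, add_zero]
        unfold dl at dq
        linear_combination dq

end Pool.Agent.U707.SHA
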