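import Pool.Agent.U115.GE.Fin
import Pool.Agent.U707.SHA.Ram

/-!
# The kernel of the descent on the twist and the kernel of the set of its prime factors
-/

set_option autoImplicit false
set_option linter.unusedSectionVars false
set_option linter.unusedVariables false

open scoped Classical

namespace Pool.Agent.U707.SHA

open Finset
open Pool.Agent.U115.GE
open Pool.Agent.Y698.SG (nq nq_prod nq_zero)
open Pool.Agent.U115.XP (matF matF_eqs prod_ne)
open Pool.Agent.TH841.NF.D (rk)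

variable {a b : ℤ}

/-- the Shafarevich-Tate group -/
abbrev Sh := @Pool.Agent.TH841.NF.D.Sha

/-- the split primes -/
noncomputable def spl (a b : ℤ) (D : ℕ) : Finset ℕ := D.primeFactors.filter fun p => Res a b p

/-- the inert primes -/
noncomputable def ine (a b : ℤ) (D : ℕ) : Finset ℕ := D.primeFactors.filter fun p => ¬ Res a b p

lemma spl_ine (a b : ℤ) (D : ℕ) : Disjoint (ine a b D) (spl a b D) := by
  rw [Finset.disjoint_left]
  intro p h1 h2
  exact (Finset.mem_filter.1 h1).2 (Finset.mem_filter.1 h2).2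

lemma prod_eq {D : ℕ} (h : Squarefree D) :
    D = (∏ p ∈ spl a b D, p) * ∏ q ∈ ine a b D, q := by
  conv_lhs => rw [← Nat.prod_primeFactors_of_squarefree h]
  exact (Finset.prod_filter_mul_prod_filter_not _ _ _).symm

/-- the hypotheses of the descent -/
theorem class_hg (hb : b ≠ 0) (hc : a ^ 2 - 4 * b ≠ 0) {D : ℕ} (h : Class a b D) :
    HG a b (∏ q ∈ ine a b D, q) (spl a b D) := by
  obtain ⟨h1, h2, h3⟩ := h
  refine ⟨hb, hc, ?_, ?_, ?_, ?_⟩
  · rw [← prod_eq h1]
    exact Int.squarefree_natCast.2 h1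
  · rw [← prod_eq h1]
    exact h2
  · intro p hp
    have hp' := Finset.mem_filter.1 hp
    exact ⟨Nat.prime_of_mem_primeFactors hp'.1, hp'.2⟩
  · intro q hq hqm
    have hqD : q ∈ ine a b D := by
      rw [hq.prime.dvd_finsetProd_iff] at hqm
      obtain ⟨r, hr, hqr⟩ := hqm
      have hrp := Nat.prime_of_mem_primeFactors (Finset.mem_filter.1 hr).1
      rwa [(Nat.prime_dvd_prime_iff_eq hq hrp).1 hqr]
    have hq' := Finset.mem_filter.1 hqD
    rcases h3 q hq'.1 with h | h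
    · exact absurd h.2 hq'.2
    · exact h.2

/-- the equations -/
theorem sol_iff (f : ℕ → ZMod 2) (S : Finset ℕ) (x : ℕ → ZMod 2) : Sol (Res a b) nq f S x ↔
    (matF f (S.filter fun p => ¬ Res a b p) (S.filter fun p => Res a b p)).mulVec
      (fun i => x i) = 0 := by
  set Q := S.filter fun p => ¬ Res a b p with hQ
  set P := S.filter fun p => Res a b p with hP
  have heq : ∀ (p : ℕ), p ∈ P →
      (∑ q ∈ S, nq p q * (cu (Res a b) x q + x p) + f p * x p =
        (f p + ∑ q ∈ Q, nq p q) * x p + ∑ j : P, nq p j * (x p + x j)) := by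
    intro p hp
    rw [Finset.sum_coe_sort P (fun j => nq p j * (x p + x j))]
    have h1 : ∑ q ∈ S, nq p q * (cu (Res a b) x q + x p) =
        ∑ q ∈ Q, nq p q * (cu (Res a b) x q + x p) + ∑ q ∈ P, nq p q * (cu (Res a b) x q + x p) := by
      rw [hQ, hP, add_comm]
      exact (Finset.sum_filter_add_sum_filter_not S (fun q => Res a b q) _).symm
    have h2 : ∑ q ∈ Q, nq p q * (cu (Res a b) x q + x p) = (∑ q ∈ Q, nq p q) * x p := by
      rw [Finset.sum_mul]
      refine Finset.sum_congr rfl fun q hq => ?_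
      have h3 : cu (Res a b) x q = 0 := if_neg (Finset.mem_filter.1 hq).2
      rw [h3, zero_add]
    have h3 : ∑ q ∈ P, nq p q * (cu (Res a b) x q + x p) = ∑ q ∈ P, nq p q * (x p + x q) := by
      refine Finset.sum_congr rfl fun q hq => ?_
      have h3 : cu (Res a b) x q = x q := if_pos (Finset.mem_filter.1 hq).2
      rw [h3, add_comm (x q)]
    rw [h1, h2, h3]
    ring
  constructor
  · intro hs
    funext i
    obtain ⟨h1, h2⟩ := Finset.mem_filter.1 i.2
    rw [matF_eqs, ← heq i i.2]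
    exact hs i h1 h2
  · intro h p hp h8
    have hpP : p ∈ P := Finset.mem_filter.2 ⟨hp, h8⟩
    have h1 := congrFun h ⟨p, hpP⟩
    rw [matF_eqs] at h1
    rw [heq p hpP]
    exact h1

/-- the number of the elements of the kernel of the descent -/
noncomputable def kap (a b : ℤ) (D : ℕ) : ℕ := kapG a b (∏ q ∈ ine a b D, q) (spl a b D)

/-- the two kernels -/
theorem card_ks (hb : b ≠ 0) (hc : a ^ 2 - 4 * b ≠ 0) {D : ℕ} (h : Class a b D) :
    Nat.card (KS (Res a b) nq (thetaG a b) D.primeFactors) = kap a b D := by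
  have H := class_hg hb hc h
  have hQ : ∀ q ∈ ine a b D, q.Prime := fun q hq =>
    Nat.prime_of_mem_primeFactors (Finset.mem_filter.1 hq).1
  have h01 : ∀ z : ZMod 2, z = 0 ∨ z = 1 := by decide
  have key : ∀ J ⊆ spl a b D, (Sol (Res a b) nq (thetaG a b) D.primeFactors
      (fun i => if i ∈ J then 1 else 0) ↔ KerG a b (∏ q ∈ ine a b D, q) (spl a b D) J) := by
    intro J hJ
    rw [sol_iff, ← ker_iffG H hQ rfl (spl_ine a b D) hJ]
    rfl
  have e : {J : Finset ℕ // J ∈ (spl a b D).powerset.filter fun J =>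
      KerG a b (∏ q ∈ ine a b D, q) (spl a b D) J} ≃
      KS (Res a b) nq (thetaG a b) D.primeFactors := by
    refine Equiv.ofBijective (fun J => ⟨fun i => if i ∈ J.1 then 1 else 0, ?_⟩) ⟨?_, ?_⟩
    · have h1 := Finset.mem_filter.1 J.2
      have h2 := Finset.mem_powerset.1 h1.1
      refine ⟨fun p hp => if_neg fun h' => hp (Finset.mem_filter.1 (h2 h')), (key J.1 h2).2 h1.2⟩
    · intro x y hxy
      apply Subtype.ext
      ext i
      have h2 := congrFun (congrArg Subtype.val hxy) i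
      simp only at h2
      by_cases h3 : i ∈ x.1 <;> by_cases h4 : i ∈ y.1 <;> simp [h3, h4] at h2 ⊢
    · intro x
      set J : Finset ℕ := (spl a b D).filter fun i => x.1 i = 1 with hJ
      have hJP : J ⊆ spl a b D := Finset.filter_subset _ _
      have hxe : (fun i : ℕ => if i ∈ J then (1 : ZMod 2) else 0) = x.1 := by
        funext i
        by_cases h : i ∈ J
        · rw [if_pos h]
          exact (Finset.mem_filter.1 h).2.symm
        · rw [if_neg h]
          by_cases h5 : i ∈ spl a b D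
          · rcases h01 (x.1 i) with h2 | h2
            · exact h2.symm
            · exact absurd (Finset.mem_filter.2 ⟨h5, h2⟩) h
          · exact (x.2.1 i fun h6 => h5 (Finset.mem_filter.2 h6)).symm
      have hk := x.2.2
      rw [← hxe] at hk
      exact ⟨⟨J, Finset.mem_filter.2 ⟨Finset.mem_powerset.2 hJP, (key J hJP).1 hk⟩⟩,
        Subtype.ext hxe⟩
  have h3 := Nat.card_congr e
  rw [Nat.card_eq_fintype_card, Fintype.card_coe] at h3
  exact h3.symm

lemma nq_self (p : ℕ) : nq p p = 0 := by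
  rw [nq_zero, ZMod.natCast_self]
  exact ⟨0, by ring⟩

lemma nq_symm {p q : ℕ} (hp : p.Prime) (h8 : p % 8 = 1) (hq : q.Prime) (hq2 : q ≠ 2) :
    nq p q = nq q p := by
  haveI : Fact p.Prime := ⟨hp⟩
  haveI : Fact q.Prime := ⟨hq⟩
  have h := ZMod.exists_sq_eq_prime_iff_of_mod_four_eq_one (p := p) (q := q) (by omega) hq2
  unfold nq
  by_cases h1 : IsSquare (q : ZMod p)
  · rw [if_pos h1, if_pos (h.1 h1)]
  · rw [if_neg h1, if_neg fun h2 => h1 (h.2 h2)]

/-- split or inert primes -/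
def SI (a b : ℤ) (p : ℕ) : Prop := p.Prime ∧ (Res a b p ∨ Inert a b p)

lemma SI.two {p : ℕ} (h : SI a b p) : p ≠ 2 := by
  rintro rfl
  rcases h.2 with h | h
  · have := h.1
    omega
  · exact h.2.1 rfl

lemma SI.odd {p : ℕ} (h : SI a b p) : p % 2 = 1 :=
  (h.1.eq_two_or_odd).resolve_left h.two

/-- split and inert primes do not divide `b c` -/
lemma SI.nd {p : ℕ} (h : SI a b p) : ¬ (p : ℤ) ∣ b * (a ^ 2 - 4 * b) := by
  rcases h.2 with h' | h'
  · exact split_nd ⟨h.1, h'⟩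
  · intro hd
    have hP : Prime (p : ℤ) := Nat.prime_iff_prime_int.1 h.1
    rcases hP.dvd_or_dvd hd with h1 | h1
    · exact h'.2.2.1 (by rw [(ZMod.intCast_zmod_eq_zero_iff_dvd b p).2 h1]; exact ⟨0, by ring⟩)
    · exact h'.2.2.2 (by
        rw [(ZMod.intCast_zmod_eq_zero_iff_dvd (a ^ 2 - 4 * b) p).2 h1]; exact ⟨0, by ring⟩)

/-- the odd primes dividing `b c` -/
noncomputable def bad (a b : ℤ) : Finset ℕ := (b * (a ^ 2 - 4 * b)).natAbs.primeFactors.erase 2

lemma mem_bad (hb : b ≠ 0) (hc : a ^ 2 - 4 * b ≠ 0) {l : ℕ} :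
    l ∈ bad a b ↔ l.Prime ∧ l ≠ 2 ∧ (l : ℤ) ∣ b * (a ^ 2 - 4 * b) := by
  unfold bad
  rw [mem_erase, Nat.mem_primeFactors, Int.natCast_dvd]
  have h0 : (b * (a ^ 2 - 4 * b)).natAbs ≠ 0 := Int.natAbs_ne_zero.2 (mul_ne_zero hb hc)
  tauto

/-- the class of a prime modulo `8` and modulo the bad primes -/
noncomputable def cl (a b : ℤ) (q : ℕ) : Fin 4 × (bad a b → Bool) :=
  (⟨q % 8 / 2, by omega⟩, fun l => decide (IsSquare (q : ZMod (l : ℕ))))

lemma card_cl (a b : ℤ) : Fintype.card (Fin 4 × (bad a b → Bool)) = 2 ^ ((bad a b).card + 2) := by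
  rw [Fintype.card_prod, Fintype.card_fin, Fintype.card_fun, Fintype.card_bool, Fintype.card_coe]
  ring

lemma cl_8 {p q : ℕ} (hp : SI a b p) (hq : SI a b q) (h : cl a b p = cl a b q) : p % 8 = q % 8 := by
  have h1 : p % 8 / 2 = q % 8 / 2 := congrArg (fun x => (x.1 : ℕ)) h
  have h2 := hp.odd
  have h3 := hq.odd
  omega

lemma cl_l {p q l : ℕ} (h : cl a b p = cl a b q) (hl : l ∈ bad a b) :
    IsSquare (p : ZMod l) ↔ IsSquare (q : ZMod l) := by
  have h1 := congrFun (congrArg Prod.snd h) ⟨l, hl⟩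
  unfold cl at h1
  simpa using h1

lemma ndvd_of {p l : ℕ} (hp : SI a b p) (hl : l.Prime) (hd : (l : ℤ) ∣ b * (a ^ 2 - 4 * b)) :
    ¬ l ∣ p := by
  intro h
  rw [(Nat.prime_dvd_prime_iff_eq hl hp.1).1 h] at hd
  exact hp.nd hd

/-- primes of the same class are both split or both inert -/
theorem res_iff_of_cl (hb : b ≠ 0) (hc : a ^ 2 - 4 * b ≠ 0) {p q : ℕ} (hp : SI a b p)
    (hq : SI a b q) (h : cl a b p = cl a b q) : Res a b p ↔ Res a b q := by
  have key : ∀ {p q : ℕ}, SI a b p → SI a b q → cl a b p = cl a b q → Res a b p → Res a b q := by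
    intro p q hp hq h hr
    refine ⟨(cl_8 hp hq h).symm.trans hr.1, fun l hl h2 hd => ⟨ndvd_of hq hl hd, ?_⟩⟩
    exact (cl_l h ((mem_bad hb hc).2 ⟨hl, h2, hd⟩)).1 (hr.2 l hl h2 hd).2
  exact ⟨key hp hq h, key hq hp h.symm⟩

/-- the product of two primes of the same class -/
theorem res_two (hb : b ≠ 0) (hc : a ^ 2 - 4 * b ≠ 0) {p q : ℕ} (hp : SI a b p)
    (hq : SI a b q) (h : cl a b p = cl a b q) : Res a b (p * q) := by
  refine ⟨?_, fun l hl h2 hd => ⟨?_, ?_⟩⟩
  · have h1 := cl_8 hp hq h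
    have h3 := hp.odd
    rw [Nat.mul_mod, ← h1]
    have h4 : p % 8 = 1 ∨ p % 8 = 3 ∨ p % 8 = 5 ∨ p % 8 = 7 := by omega
    rcases h4 with h4 | h4 | h4 | h4 <;> rw [h4]
  · rw [hl.dvd_mul, not_or]
    exact ⟨ndvd_of hp hl hd, ndvd_of hq hl hd⟩
  · haveI : Fact l.Prime := ⟨hl⟩
    have h5 := cl_l h ((mem_bad hb hc).2 ⟨hl, h2, hd⟩)
    rw [Nat.cast_mul]
    by_cases h6 : IsSquare (p : ZMod l)
    · exact h6.mul (h5.1 h6)
    · exact nn_sq h6 fun h7 => h6 (h5.2 h7)

/-- the product of an even number of primes of the same class -/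
theorem res_even (hb : b ≠ 0) (hc : a ^ 2 - 4 * b ≠ 0) : ∀ (n : ℕ) (A : Finset ℕ), A.card = 2 * n →
    (∀ p ∈ A, SI a b p) → (∀ p ∈ A, ∀ q ∈ A, cl a b p = cl a b q) → Res a b (∏ p ∈ A, p) := by
  intro n
  induction n with
  | zero =>
    intro A hA _ _
    rw [mul_zero, card_eq_zero] at hA
    rw [hA, prod_empty]
    exact res_one a b
  | succ n ih =>
    intro A hA hS hcl
    obtain ⟨p, hp⟩ : A.Nonempty := card_pos.1 (by omega)
    have h1 : (A.erase p).card = 2 * n + 1 := by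
      rw [card_erase_of_mem hp]
      omega
    obtain ⟨q, hq⟩ : (A.erase p).Nonempty := card_pos.1 (by omega)
    have h2 : ((A.erase p).erase q).card = 2 * n := by
      rw [card_erase_of_mem hq]
      omega
    have hq' := mem_of_mem_erase hq
    have h3 := ih ((A.erase p).erase q) h2
      (fun r hr => hS r (mem_of_mem_erase (mem_of_mem_erase hr)))
      fun r hr s hs => hcl r (mem_of_mem_erase (mem_of_mem_erase hr)) s
        (mem_of_mem_erase (mem_of_mem_erase hs))
    rw [← mul_prod_erase A (fun p => p) hp, ← mul_prod_erase (A.erase p) (fun p => p) hq,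
      ← mul_assoc]
    exact res_mul (res_two hb hc (hS p hp) (hS q hq') (hcl p hp q hq')) h3

/-- the extension of `D` -/
theorem mul_fac (hb : b ≠ 0) (hc : a ^ 2 - 4 * b ≠ 0) {D : ℕ} (hD : Class a b D) {A : Finset ℕ}
    (hA : Even A.card) (hS : ∀ p ∈ A, SI a b p) (hd : ∀ p ∈ A, ¬ p ∣ D)
    (hcl : ∀ p ∈ A, ∀ q ∈ A, cl a b p = cl a b q) :
    Class a b (D * ∏ p ∈ A, p) ∧ (D * ∏ p ∈ A, p).primeFactors = D.primeFactors ∪ A := by
  have h1 : (∏ p ∈ A, p).primeFactors = A := Nat.primeFactors_prod fun p hp => (hS p hp).1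
  have h0 : ∏ p ∈ A, p ≠ 0 := prod_ne_zero_iff.2 fun p hp => (hS p hp).1.ne_zero
  have h3 : (D * ∏ p ∈ A, p).primeFactors = D.primeFactors ∪ A := by
    rw [Nat.primeFactors_mul hD.1.ne_zero h0, h1]
  have h2 : Squarefree (∏ p ∈ A, p) := by
    refine Finset.squarefree_prod_of_pairwise_isCoprime ?_ fun p hp => (hS p hp).1.squarefree
    intro p hp q hq hpq
    exact Nat.coprime_iff_isRelPrime.1 ((Nat.coprime_primes (hS p hp).1 (hS q hq).1).2 hpq)
  obtain ⟨n, hn⟩ := hA
  refine ⟨⟨?_, ?_, fun p hp => ?_⟩, h3⟩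
  · refine (Nat.squarefree_mul_iff).2 ⟨?_, hD.1, h2⟩
    refine Nat.Coprime.prod_right fun p hp => ?_
    exact (((hS p hp).1.coprime_iff_not_dvd).2 (hd p hp)).symm
  · exact res_mul hD.2.1 (res_even hb hc n A (by omega) hS hcl)
  · rw [h3] at hp
    rcases mem_union.1 hp with h' | h'
    · exact hD.2.2 p h'
    · rcases (hS p h').2 with h | h
      · exact Or.inl ⟨(hS p h').1, h⟩
      · exact Or.inr h

lemma class_si {D : ℕ} (hD : Class a b D) {p : ℕ} (hp : p ∈ D.primeFactors) : SI a b p := by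
  refine ⟨Nat.prime_of_mem_primeFactors hp, ?_⟩
  rcases hD.2.2 p hp with h | h
  · exact Or.inl h.2
  · exact Or.inr h

/-- the quartic condition -/
def NoRoot (a b : ℤ) (D p : ℕ) : Prop :=
  ∀ t : ZMod p, t ^ 4 + (a : ZMod p) * D * t ^ 2 + (b : ZMod p) * (D : ZMod p) ^ 2 ≠ 0

lemma NoRoot.nd {D p : ℕ} (h : NoRoot a b D p) : ¬ p ∣ D := by
  intro hd
  refine h 0 ?_
  rw [(ZMod.natCast_eq_zero_iff _ _).2 hd]
  ring

lemma noRoot_rt {D p : ℕ} : NoRoot a b D p ↔ RtG a b p D := by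
  constructor
  · rintro h x hx ⟨t, rfl⟩
    refine h t ?_
    linear_combination hx
  · intro h t ht
    refine h (t ^ 2) ?_ ⟨t, by ring⟩
    linear_combination ht

/-- admissible inert primes -/
lemma noRoot_inert {D p : ℕ} (hp : Inert a b p) (hd : ¬ p ∣ D) : NoRoot a b D p := by
  intro t ht
  haveI : Fact p.Prime := ⟨hp.1⟩
  have hD : (D : ZMod p) ≠ 0 := by rwa [Ne, ZMod.natCast_eq_zero_iff]
  refine hp.2.2.2 ⟨(2 * t ^ 2 + (a : ZMod p) * D) / D, ?_⟩
  rw [div_mul_div_comm, eq_div_iff (mul_ne_zero hD hD)]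
  push_cast
  linear_combination (-4 : ZMod p) * ht

/-- admissible split primes -/
theorem noRoot_split {D p : ℕ} (hD : Class a b D) (hp : p.Prime) (hr : Res a b p) (hd : ¬ p ∣ D) :
    NoRoot a b D p ↔ dl nq (thetaG a b) D.primeFactors p = 1 := by
  haveI : Fact p.Prime := ⟨hp⟩
  have hD0 : (D : ZMod p) ≠ 0 := by rwa [Ne, ZMod.natCast_eq_zero_iff]
  rw [noRoot_rt, rt_mulG ⟨hp, hr⟩ hD0]
  have h1 : ∑ l ∈ D.primeFactors, nq p l = nq p D := by
    have h2 := nq_prod hp (S := D.primeFactors) (fun l hl => Nat.prime_of_mem_primeFactors hl)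
      fun h => hd (Nat.dvd_of_mem_primeFactors h)
    rw [Nat.prod_primeFactors_of_squarefree hD.1] at h2
    exact h2.symm
  unfold dl
  rw [h1]
  unfold thetaG nq
  generalize IsSquare ((D : ℕ) : ZMod p) = b'
  generalize RtG a b p 1 = a'
  have e1 : ¬ ((1 + 1 : ZMod 2) = 1) := by decide
  have e2 : ((1 + 0 : ZMod 2) = 1) := by decide
  have e3 : ((0 + 1 : ZMod 2) = 1) := by decide
  have e4 : ¬ ((0 + 0 : ZMod 2) = 1) := by decide
  by_cases h2 : a' <;> by_cases h3 : b' <;> simp only [h2, h3, if_true, if_false, e1, e2, e3, e4] <;>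
    tauto

end Pool.Agent.U707.SHA
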